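import Pool.Agent.Helper66.TJ.Meas

set_option autoImplicit false

/-! The measure on couplings with an ordered pair of distinct T-joins. -/

namespace Pool.Agent.Helper60.TJ

open MeasureTheory Set
open scoped ENNReal

/-! ### measurability of the elementary maps -/

theorem measurable_sh {α : Type*} [MeasurableSpace α] (u : Vx) :
    Measurable (sh u : (Ed → α) → (Ed → α)) :=
  measurable_pi_lambda _ fun _ => measurable_pi_apply _

theorem measurable_shX (u : Vx) : Measurable (shX u) :=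
  ((measurable_sh u).comp measurable_fst).prodMk
    (((measurable_sh u).comp (measurable_fst.comp measurable_snd)).prodMk
      ((measurable_sh u).comp (measurable_snd.comp measurable_snd)))

theorem measurable_upd (e : Ed) : Measurable fun q : (Ed → ℝ) × ℝ => upd q.1 e q.2 := by
  classical
  unfold upd
  refine measurable_pi_lambda _ fun f => ?_
  by_cases h : f = e
  · subst h
    simp only [Function.update_self]
    exact measurable_snd
  · simp only [Function.update_of_ne h]
    exact (measurable_pi_apply f).comp measurable_fst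

theorem measurable_updX (e : Ed) : Measurable (updX e) := by
  unfold updX
  exact ((measurable_upd e).comp
    ((measurable_fst.comp measurable_fst).prodMk measurable_snd)).prodMk
    (measurable_snd.comp measurable_fst)

theorem measurableSet_Srv (e : Ed) : MeasurableSet (Srv e) := by
  have h1 : Measurable fun q : XX × ℝ => upd q.1.1 e q.2 :=
    (measurable_upd e).comp ((measurable_fst.comp measurable_fst).prodMk measurable_snd)
  have h2 : Measurable fun q : XX × ℝ => ((upd q.1.1 e q.2, q.1.2.1) : (Ed → ℝ) × (Ed → Bool)) :=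
    h1.prodMk (measurable_fst.comp (measurable_snd.comp measurable_fst))
  have h3 : Measurable fun q : XX × ℝ => ((upd q.1.1 e q.2, q.1.2.2) : (Ed → ℝ) × (Ed → Bool)) :=
    h1.prodMk (measurable_snd.comp (measurable_snd.comp measurable_fst))
  exact (h2 measurableSet_GJ).inter (h3 measurableSet_GJ)

theorem measurableSet_neq : MeasurableSet {p : XX | p.2.1 ≠ p.2.2} := by
  have : {p : XX | p.2.1 ≠ p.2.2} = ⋃ e, {p : XX | p.2.1 e = p.2.2 e}ᶜ := by
    ext p
    simp only [mem_ofPred_eq, mem_iUnion, mem_compl_iff]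
    exact Function.ne_iff
  rw [this]
  refine MeasurableSet.iUnion fun e => MeasurableSet.compl ?_
  exact measurableSet_eq_fun
    ((measurable_pi_apply e).comp (measurable_fst.comp measurable_snd))
    ((measurable_pi_apply e).comp (measurable_snd.comp measurable_snd))

/-- distinct pairs of T-joins -/
def GG : Set XX := {p | p.2.1 ∈ GJ p.1 ∧ p.2.2 ∈ GJ p.1 ∧ p.2.1 ≠ p.2.2}

theorem measurableSet_GG : MeasurableSet GG := by
  have h1 : MeasurableSet {p : XX | p.2.1 ∈ GJ p.1} :=
    (measurable_fst.prodMk (measurable_fst.comp measurable_snd)) measurableSet_GJ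
  have h2 : MeasurableSet {p : XX | p.2.2 ∈ GJ p.1} :=
    (measurable_fst.prodMk (measurable_snd.comp measurable_snd)) measurableSet_GJ
  exact h1.inter (h2.inter measurableSet_neq)

/-! ### invariance of the law of the couplings -/

theorem mp_sh (μ : Measure ℝ) [IsProbabilityMeasure μ] (u : Vx) :
    MeasurePreserving (sh u : (Ed → ℝ) → (Ed → ℝ)) (PP μ) (PP μ) := by
  refine ⟨measurable_sh u, ?_⟩
  exact Measure.map_infinitePi_infinitePi_of_inj (P := fun _ : Ed => μ) (f := shE u)
    (shE u).injective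

/-- resampling of one coupling -/
theorem mp_upd (μ : Measure ℝ) [IsProbabilityMeasure μ] (e : Ed) :
    MeasurePreserving (fun q : (Ed → ℝ) × ℝ => upd q.1 e q.2) ((PP μ).prod μ) (PP μ) := by
  classical
  refine ⟨measurable_upd e, ?_⟩
  refine Measure.eq_infinitePi (μ := fun _ : Ed => μ) ?_
  intro s t ht
  rw [Measure.map_apply (measurable_upd e) (MeasurableSet.pi s.countable_toSet fun i _ => ht i)]
  by_cases he : e ∈ s
  · have h1 : (fun q : (Ed → ℝ) × ℝ => upd q.1 e q.2) ⁻¹' (Set.pi ↑s t)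
        = (Set.pi ↑(s.erase e) t) ×ˢ (t e) := by
      ext q
      simp only [mem_preimage, Set.mem_pi, Finset.mem_coe, mem_prod, Finset.mem_erase, upd]
      constructor
      · intro h
        refine ⟨fun i hi => ?_, ?_⟩
        · have := h i hi.2
          rwa [Function.update_of_ne hi.1] at this
        · have := h e he
          rwa [Function.update_self] at this
      · rintro ⟨h2, h3⟩ i hi
        by_cases hie : i = e
        · subst hie; rwa [Function.update_self]
        · rw [Function.update_of_ne hie]; exact h2 i ⟨hie, hi⟩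
    rw [h1, Measure.prod_prod, Measure.infinitePi_pi _ fun i _ => ht i,
      ← Finset.mul_prod_erase s (fun i => μ (t i)) he, mul_comm]
  · have h1 : (fun q : (Ed → ℝ) × ℝ => upd q.1 e q.2) ⁻¹' (Set.pi ↑s t)
        = (Set.pi ↑s t) ×ˢ univ := by
      ext q
      simp only [mem_preimage, Set.mem_pi, Finset.mem_coe, mem_prod, mem_univ, and_true, upd]
      refine forall₂_congr fun i hi => ?_
      have hie : i ≠ e := fun h => he (h ▸ hi)
      rw [Function.update_of_ne hie]
    rw [h1, Measure.prod_prod, Measure.infinitePi_pi _ fun i _ => ht i, measure_univ, mul_one]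

/-! ### the measure -/

section

variable (μ : Measure ℝ) {k : ℕ} (s : Fin k → (Ed → ℝ) → (Ed → Bool))

/-- the point of `XX` given by two selectors -/
def pt (i j : Fin k) (J : Ed → ℝ) : XX := (J, s i J, s j J)

/-- the measure -/
noncomputable def QM : Measure XX :=
  ∑ q ∈ (Finset.univ : Finset (Fin k × Fin k)).filter (fun q => q.1 ≠ q.2),
    (PP μ).map (pt s q.1 q.2)

/-- the number of ordered pairs in `D` -/
noncomputable def ct (D : Set XX) (J : Ed → ℝ) : ℝ≥0∞ :=
  ({q : (Ed → Bool) × (Ed → Bool) | (J, q.1, q.2) ∈ GG ∩ D}.ncard : ℕ)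

end

structure Sel {k : ℕ} (s : Fin k → (Ed → ℝ) → (Ed → Bool)) : Prop where
  meas : ∀ i, Measurable (s i)
  good : ∀ J, (GJ J).Finite → (GJ J).ncard = k → (∀ i, s i J ∈ GJ J) ∧
      (∀ i j, i ≠ j → s i J ≠ s j J) ∧ ∀ U ∈ GJ J, ∃ i, s i J = U

theorem measurable_pt {k : ℕ} {s : Fin k → (Ed → ℝ) → (Ed → Bool)} (hs : Sel s) (i j : Fin k) :
    Measurable (pt s i j) := measurable_id.prodMk ((hs.meas i).prodMk (hs.meas j))

theorem ct_eq {k : ℕ} {s : Fin k → (Ed → ℝ) → (Ed → Bool)} (hs : Sel s) {J : Ed → ℝ}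
    (hf : (GJ J).Finite) (hc : (GJ J).ncard = k) (D : Set XX) [DecidablePred (· ∈ D)] :
    ct D J = ((((Finset.univ : Finset (Fin k × Fin k)).filter (fun q => q.1 ≠ q.2)).filter
      (fun q => pt s q.1 q.2 J ∈ D)).card : ℕ) := by
  classical
  obtain ⟨h1, h2, h3⟩ := hs.good J hf hc
  unfold ct
  congr 1
  have hinj : Function.Injective (fun i => s i J) := by
    intro i j hij
    by_contra hne
    exact h2 i j hne hij
  rw [← Set.ncard_coe_finset]
  symm
  refine Set.ncard_congr (fun q _ => (s q.1 J, s q.2 J)) ?_ ?_ ?_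
  · intro q hq
    simp only [Finset.coe_filter, Finset.mem_filter, Finset.mem_univ, true_and, mem_ofPred_eq] at hq
    exact ⟨⟨h1 _, h1 _, h2 _ _ hq.1⟩, hq.2⟩
  · intro q q' _ _ hqq
    exact Prod.ext (hinj (congrArg Prod.fst hqq)) (hinj (congrArg Prod.snd hqq))
  · rintro ⟨U, U'⟩ ⟨⟨hU, hU', hne⟩, hD⟩
    obtain ⟨i, rfl⟩ := h3 U hU
    obtain ⟨j, rfl⟩ := h3 U' hU'
    refine ⟨(i, j), ?_, rfl⟩
    simp only [Finset.coe_filter, Finset.mem_filter, Finset.mem_univ, true_and, mem_ofPred_eq]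
    exact ⟨fun h => hne (by rw [h]), hD⟩

/-- the integral formula -/
theorem QM_apply {μ : Measure ℝ} [IsProbabilityMeasure μ] {k : ℕ}
    {s : Fin k → (Ed → ℝ) → (Ed → Bool)} (hs : Sel s) (hN : ∀ᵐ J ∂(PP μ), Nice k J)
    {D : Set XX} (hD : MeasurableSet D) : QM μ s D = ∫⁻ J, ct D J ∂(PP μ) := by
  classical
  unfold QM
  rw [Measure.finsetSum_apply]
  have h1 : ∀ q : Fin k × Fin k, (Measure.map (pt s q.1 q.2) (PP μ)) D
      = ∫⁻ J, (if pt s q.1 q.2 J ∈ D then 1 else 0) ∂(PP μ) := by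
    intro q
    rw [Measure.map_apply (measurable_pt hs _ _) hD,
      ← lintegral_indicator_one (measurable_pt hs _ _ hD)]
    rfl
  simp_rw [h1]
  rw [← lintegral_finsetSum]
  · refine lintegral_congr_ae ?_
    filter_upwards [hN] with J hJ
    rw [ct_eq hs hJ.fin hJ.card D, Finset.card_filter]
    push_cast
    rfl
  · intro q _
    exact Measurable.ite (measurable_pt hs _ _ hD) measurable_const measurable_const

theorem aemeasurable_ct {μ : Measure ℝ} [IsProbabilityMeasure μ] {k : ℕ}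
    {s : Fin k → (Ed → ℝ) → (Ed → Bool)} (hs : Sel s) (hN : ∀ᵐ J ∂(PP μ), Nice k J)
    {D : Set XX} (hD : MeasurableSet D) : AEMeasurable (ct D) (PP μ) := by
  classical
  refine ⟨fun J => ∑ q ∈ (Finset.univ : Finset (Fin k × Fin k)).filter (fun q => q.1 ≠ q.2),
    (if pt s q.1 q.2 J ∈ D then 1 else 0), ?_, ?_⟩
  · refine Finset.measurable_sum _ fun q _ => ?_
    exact Measurable.ite (measurable_pt hs _ _ hD) measurable_const measurable_const
  · filter_upwards [hN] with J hJ
    rw [ct_eq hs hJ.fin hJ.card D, Finset.card_filter]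
    push_cast
    rfl

theorem finite_pairs {J : Ed → ℝ} (hf : (GJ J).Finite) (D : Set XX) :
    {q : (Ed → Bool) × (Ed → Bool) | (J, q.1, q.2) ∈ GG ∩ D}.Finite := by
  refine (hf.prod hf).subset ?_
  rintro q ⟨⟨h1, h2, -⟩, -⟩
  exact ⟨h1, h2⟩

theorem ct_le {k : ℕ} {J : Ed → ℝ} (hf : (GJ J).Finite) (hc : (GJ J).ncard = k) (D : Set XX) :
    ct D J ≤ (k * k : ℕ) := by
  unfold ct
  have h1 : {q : (Ed → Bool) × (Ed → Bool) | (J, q.1, q.2) ∈ GG ∩ D} ⊆ GJ J ×ˢ GJ J := by
    rintro q ⟨⟨h1, h2, -⟩, -⟩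
    exact ⟨h1, h2⟩
  have h2 := Set.ncard_le_ncard h1 (hf.prod hf)
  rw [Set.ncard_prod, hc] at h2
  exact_mod_cast h2

theorem one_le_ct {J : Ed → ℝ} (hf : (GJ J).Finite) {D : Set XX} {U U' : Ed → Bool}
    (h : (J, U, U') ∈ GG ∩ D) : 1 ≤ ct D J := by
  unfold ct
  have : 0 < {q : (Ed → Bool) × (Ed → Bool) | (J, q.1, q.2) ∈ GG ∩ D}.ncard :=
    (Set.ncard_pos (finite_pairs hf D)).2 ⟨(U, U'), h⟩
  exact_mod_cast this

theorem ct_eq_zero {J : Ed → ℝ} (hf : (GJ J).Finite) {D : Set XX} (h : ct D J = 0)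
    {U U' : Ed → Bool} : (J, U, U') ∉ GG ∩ D := by
  intro h'
  have := one_le_ct hf h'
  rw [h] at this
  exact absurd this (by simp)

theorem ct_sh {J : Ed → ℝ} (u : Vx) (D : Set XX) : ct (shX u ⁻¹' D) J = ct D (sh u J) := by
  unfold ct
  congr 1
  refine Set.ncard_congr (fun q _ => (sh u q.1, sh u q.2)) ?_ ?_ ?_
  · rintro q ⟨⟨h1, h2, h3⟩, h4⟩
    refine ⟨⟨mem_GJ_sh.2 h1, mem_GJ_sh.2 h2, fun h => h3 ?_⟩, h4⟩
    have := congrArg (sh (-u)) h
    simp only [sh_sh, neg_add_cancel, sh_zero] at this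
    exact this
  · intro q q' _ _ hqq
    have h1 := congrArg (fun r => (sh (-u) r.1, sh (-u) r.2)) hqq
    simp only [sh_sh, neg_add_cancel, sh_zero] at h1
    exact Prod.ext (congrArg Prod.fst h1) (congrArg Prod.snd h1)
  · rintro ⟨V, V'⟩ ⟨⟨h1, h2, h3⟩, h4⟩
    have e1 : sh u (sh (-u) V) = V := by rw [sh_sh, add_neg_cancel, sh_zero]
    have e2 : sh u (sh (-u) V') = V' := by rw [sh_sh, add_neg_cancel, sh_zero]
    refine ⟨(sh (-u) V, sh (-u) V'), ⟨⟨?_, ?_, ?_⟩, ?_⟩, ?_⟩
    · rw [← mem_GJ_sh (u := u)]; simp only [e1]; exact h1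
    · rw [← mem_GJ_sh (u := u)]; simp only [e2]; exact h2
    · intro h
      apply h3
      simp only at h ⊢
      rw [← e1, ← e2, h]
    · show shX u (J, sh (-u) V, sh (-u) V') ∈ D
      unfold shX
      simp only [e1, e2]
      exact h4
    · simp only [e1, e2]

instance isFiniteMeasure_QM {μ : Measure ℝ} [IsProbabilityMeasure μ] {k : ℕ}
    (s : Fin k → (Ed → ℝ) → (Ed → Bool)) : IsFiniteMeasure (QM μ s) := by
  unfold QM
  infer_instance

theorem isQ_QM {μ : Measure ℝ} [IsProbabilityMeasure μ] {k : ℕ}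
    {s : Fin k → (Ed → ℝ) → (Ed → Bool)} (hs : Sel s) (hN : ∀ᵐ J ∂(PP μ), Nice k J) :
    IsQ μ k (QM μ s) := by
  classical
  refine ⟨?_, ?_, ?_, ?_, ?_, ?_, ?_⟩
  · -- total mass
    unfold QM
    rw [Measure.finsetSum_apply]
    have h1 : ∀ q : Fin k × Fin k, (Measure.map (pt s q.1 q.2) (PP μ)) univ = 1 := by
      intro q
      rw [Measure.map_apply (measurable_pt hs _ _) MeasurableSet.univ, preimage_univ, measure_univ]
    simp_rw [h1]
    rw [Finset.sum_const, nsmul_eq_mul, mul_one]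
    congr 1
    have h2 : ((Finset.univ : Finset (Fin k × Fin k)).filter (fun q => q.1 ≠ q.2))
        = (Finset.univ : Finset (Fin k)).offDiag := by
      ext q; simp [Finset.mem_offDiag]
    rw [h2, Finset.offDiag_card, Finset.card_univ, Fintype.card_fin, Nat.mul_sub, mul_one]
  · -- nice
    obtain ⟨N0, hN0, hN0m, hN0c⟩ : ∃ N0 : Set (Ed → ℝ), (∀ J ∈ N0, Nice k J) ∧ MeasurableSet N0 ∧
        PP μ N0ᶜ = 0 := by
      have h := hN
      rw [ae_iff] at h
      obtain ⟨t, ht1, ht2, ht3⟩ := exists_measurable_superset_of_null h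
      refine ⟨tᶜ, fun J hJ => ?_, ht2.compl, by rwa [compl_compl]⟩
      by_contra hno
      exact hJ (ht1 hno)
    have hmain : QM μ s ((Prod.fst ⁻¹' N0) ∩ GG)ᶜ = 0 := by
      unfold QM
      rw [Measure.finsetSum_apply]
      refine Finset.sum_eq_zero fun q hq => ?_
      rw [Finset.mem_filter] at hq
      rw [Measure.map_apply (measurable_pt hs _ _)
        ((measurable_fst hN0m).inter measurableSet_GG).compl]
      refine measure_mono_null ?_ hN0c
      intro J hJ hJN
      apply hJ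
      have hg := hs.good J (hN0 J hJN).fin (hN0 J hJN).card
      exact ⟨hJN, hg.1 _, hg.1 _, hg.2.1 _ _ hq.2⟩
    rw [ae_iff]
    refine measure_mono_null ?_ hmain
    intro p hp hp'
    exact hp ⟨hN0 _ hp'.1, hp'.2.1, hp'.2.2.1, hp'.2.2.2⟩
  · -- translations
    intro u
    refine ⟨measurable_shX u, ?_⟩
    ext D hD
    rw [Measure.map_apply (measurable_shX u) hD, QM_apply hs hN ((measurable_shX u) hD),
      QM_apply hs hN hD]
    simp_rw [ct_sh]
    have h1 := mp_sh (μ := μ) u
    have h2 := lintegral_map' (μ := PP μ) (f := ct D) (g := sh u)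
      (by rw [h1.map_eq]; exact aemeasurable_ct hs hN hD) h1.measurable.aemeasurable
    rw [← h2, h1.map_eq]
  · -- resampling of one coupling
    intro e
    refine Measure.le_iff.2 fun D hD => ?_
    rw [Measure.map_apply (measurable_updX e) hD,
      Measure.restrict_apply ((measurable_updX e) hD)]
    have hA : MeasurableSet (updX e ⁻¹' D ∩ Srv e) := ((measurable_updX e) hD).inter
      (measurableSet_Srv e)
    rw [Measure.prod_apply_symm hA, QM_apply hs hN hD]
    have h1 := mp_upd (μ := μ) e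
    have h3 : ∀ x : ℝ, QM μ s ((fun p : XX => (p, x)) ⁻¹' (updX e ⁻¹' D ∩ Srv e))
        = ∫⁻ J, ct ((fun p : XX => (p, x)) ⁻¹' (updX e ⁻¹' D ∩ Srv e)) J ∂(PP μ) := by
      intro x
      exact QM_apply hs hN (measurable_prodMk_right hA)
    simp_rw [h3]
    have h4 : ∀ᵐ q ∂((PP μ).prod μ), Nice k (upd q.1 e q.2) := by
      have h5 := hN
      rw [← h1.map_eq] at h5
      exact ae_of_ae_map h1.measurable.aemeasurable h5
    have h6 : ∀ᵐ x ∂μ, ∀ᵐ J ∂(PP μ), Nice k (upd J e x) := by
      have h7 : ∀ᵐ q ∂(μ.prod (PP μ)), Nice k (upd q.2 e q.1) := by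
        have h8 : ((PP μ).prod μ) = (μ.prod (PP μ)).map Prod.swap := Measure.prod_swap.symm
        rw [h8] at h4
        exact ae_of_ae_map measurable_swap.aemeasurable h4
      exact Measure.ae_ae_of_ae_prod h7
    have h9 : ∀ᵐ x ∂μ, ∫⁻ J, ct ((fun p : XX => (p, x)) ⁻¹' (updX e ⁻¹' D ∩ Srv e)) J ∂(PP μ)
        ≤ ∫⁻ J, ct D (upd J e x) ∂(PP μ) := by
      filter_upwards [h6] with x hx
      refine lintegral_mono_ae ?_
      filter_upwards [hx, hN] with J hJ hJ0
      unfold ct
      have h10 : {q : (Ed → Bool) × (Ed → Bool) |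
          (J, q.1, q.2) ∈ GG ∩ (fun p : XX => (p, x)) ⁻¹' (updX e ⁻¹' D ∩ Srv e)} ⊆
          {q : (Ed → Bool) × (Ed → Bool) | (upd J e x, q.1, q.2) ∈ GG ∩ D} := by
        rintro q ⟨⟨-, -, hne⟩, hq1, hq2, hq3⟩
        exact ⟨⟨hq2, hq3, hne⟩, hq1⟩
      have h11 := Set.ncard_le_ncard h10 (finite_pairs hJ.fin D)
      exact_mod_cast h11
    refine (lintegral_mono_ae h9).trans ?_
    have h12 : AEMeasurable (fun q : (Ed → ℝ) × ℝ => ct D (upd q.1 e q.2)) ((PP μ).prod μ) := by
      have h13 := aemeasurable_ct hs hN hD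
      rw [← h1.map_eq] at h13
      exact h13.comp_measurable h1.measurable
    rw [← lintegral_prod_symm _ h12]
    have h14 := lintegral_map' (μ := (PP μ).prod μ) (f := ct D)
      (g := fun q : (Ed → ℝ) × ℝ => upd q.1 e q.2)
      (by rw [h1.map_eq]; exact aemeasurable_ct hs hN hD) h1.measurable.aemeasurable
    rw [h1.map_eq] at h14
    exact h14.symm.le
  · -- null sets
    intro D hD h0
    rw [QM_apply hs hN hD] at h0
    have h1 := (lintegral_eq_zero_iff' (aemeasurable_ct hs hN hD)).1 h0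
    filter_upwards [h1, hN] with J hJ hJN U hU U' hU' hne hmem
    exact ct_eq_zero hJN.fin hJ ⟨⟨hU, hU', hne⟩, hmem⟩
  · -- first marginal
    intro R
    have hR := measurableSet_toMeasurable (PP μ) R
    calc QM μ s (Prod.fst ⁻¹' R) ≤ QM μ s (Prod.fst ⁻¹' (toMeasurable (PP μ) R)) :=
          measure_mono (preimage_mono (subset_toMeasurable _ _))
      _ = ∫⁻ J, ct (Prod.fst ⁻¹' (toMeasurable (PP μ) R)) J ∂(PP μ) :=
          QM_apply hs hN (measurable_fst hR)
      _ ≤ ∫⁻ J, (toMeasurable (PP μ) R).indicator (fun _ => ((k * k : ℕ) : ℝ≥0∞)) J ∂(PP μ) := by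
          refine lintegral_mono_ae ?_
          filter_upwards [hN] with J hJ
          by_cases hm : J ∈ toMeasurable (PP μ) R
          · rw [indicator_of_mem hm]
            exact ct_le hJ.fin hJ.card _
          · rw [indicator_of_notMem hm]
            have : {q : (Ed → Bool) × (Ed → Bool) |
                (J, q.1, q.2) ∈ GG ∩ (Prod.fst ⁻¹' (toMeasurable (PP μ) R))} = ∅ := by
              ext q
              simp only [mem_ofPred_eq, mem_inter_iff, mem_preimage, mem_empty_iff_false,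
                iff_false, not_and]
              intro _; exact hm
            unfold ct
            rw [this]
            simp
      _ = (k * k : ℕ) * PP μ (toMeasurable (PP μ) R) := lintegral_indicator_const hR _
      _ = (k * k : ℕ) * PP μ R := by rw [measure_toMeasurable]
  · -- existence
    intro D hD
    rw [QM_apply hs hN hD]
    obtain ⟨g, hg1, hg2⟩ := aemeasurable_ct hs hN hD
    have h1 : PP μ {J | ∃ U ∈ GJ J, ∃ U' ∈ GJ J, U ≠ U' ∧ (J, U, U') ∈ D} ≤ PP μ {J | 1 ≤ g J} := by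
      refine measure_mono_ae ?_
      filter_upwards [hg2, hN] with J hJ hJN hmem
      obtain ⟨U, hU, U', hU', hne, hD'⟩ := hmem
      show 1 ≤ g J
      rw [← hJ]
      exact one_le_ct hJN.fin ⟨⟨hU, hU', hne⟩, hD'⟩
    refine h1.trans ?_
    have h2 := meas_ge_le_lintegral_div (μ := PP μ) hg1.aemeasurable (ε := 1) one_ne_zero
      ENNReal.one_ne_top
    rw [div_one] at h2
    refine h2.trans (lintegral_congr_ae ?_).le
    filter_upwards [hg2] with J hJ
    exact hJ.symm

/-- existence of the measure `Q`. -/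
theorem exists_isQ {μ : Measure ℝ} [IsProbabilityMeasure μ] {k : ℕ}
    (hN : ∀ᵐ J ∂(PP μ), Nice k J) : ∃ Q : Measure XX, IsQ μ k Q := by
  obtain ⟨s, h1, h2⟩ := exists_selectors k
  exact ⟨QM μ s, isQ_QM ⟨h1, h2⟩ hN⟩

end Pool.Agent.Helper60.TJ
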