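import Pool.Agent.Helper66.TJ.Q
import Pool.Agent.Helper42.EA.ZeroOne

set_option autoImplicit false

/-! Sign flips and translations of the couplings: invariance of the law, zero-one law. -/

namespace Pool.Agent.Helper60.TJ

open MeasureTheory Set

/-! ### algebra of sign flips -/

theorem flp_apply (D : Ed → Bool) (J : Ed → ℝ) (e : Ed) : flp D J e = if D e then - J e else J e := rfl

@[simp] theorem flp_flp (D : Ed → Bool) (J : Ed → ℝ) : flp D (flp D J) = J := by
  funext e; simp only [flp_apply]; split_ifs <;> simp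

theorem flp_bx (D D' : Ed → Bool) (J : Ed → ℝ) : flp (bx D D') J = flp D (flp D' J) := by
  funext e; simp only [flp_apply, bx]
  by_cases h : D e = true <;> by_cases h' : D' e = true <;> simp [h, h']

theorem flp_comm (D D' : Ed → Bool) (J : Ed → ℝ) : flp D (flp D' J) = flp D' (flp D J) := by
  rw [← flp_bx, ← flp_bx, bx_comm]

@[simp] theorem wt_flp (D : Ed → Bool) (J : Ed → ℝ) : wt (flp D J) = wt J := by
  funext e; simp only [wt, flp_apply]; split_ifs <;> simp

theorem ng_flp {D : Ed → Bool} {J : Ed → ℝ} (h : ∀ e, D e = true → J e ≠ 0) :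
    ng (flp D J) = bx (ng J) D := by
  funext e
  simp only [ng, flp_apply, bx]
  by_cases hD : D e = true
  · have h0 := h e hD
    rcases lt_or_gt_of_ne h0 with h1 | h1
    · simp [hD, h1, h1.le]
    · simp [hD, h1, h1.le]
  · simp [hD]

theorem fr_flp' {D : Ed → Bool} {J : Ed → ℝ} (h : ∀ e, D e = true → J e ≠ 0) :
    fr (flp D J) = vx (fr J) (par D) := by
  unfold fr
  rw [ng_flp h, par_bx']

theorem fr_flp {D : Ed → Bool} {J : Ed → ℝ} (hJ : ∀ e, J e ≠ 0) :
    fr (flp D J) = vx (fr J) (par D) := fr_flp' fun e _ => hJ e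

theorem GJ_flp {D : Ed → Bool} {J : Ed → ℝ} (h : ∀ e, D e = true → J e ≠ 0) :
    GJ (flp D J) = GS (wt J) (vx (fr J) (par D)) := by
  unfold GJ; rw [wt_flp, fr_flp' h]

/-- Flipping the signs along edge sets with the same boundary gives the same T-joins. -/
theorem GJ_flp_congr {D D' : Ed → Bool} {J : Ed → ℝ} (h : ∀ e, J e ≠ 0) (hD : par D = par D') :
    GJ (flp D J) = GJ (flp D' J) := by
  rw [GJ_flp fun e _ => h e, GJ_flp fun e _ => h e, hD]

theorem Nice_flp_congr {k : ℕ} {D D' : Ed → Bool} {J : Ed → ℝ} (h : ∀ e, J e ≠ 0)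
    (hD : par D = par D') (hN : Nice k (flp D J)) : Nice k (flp D' J) := by
  have hG := GJ_flp_congr h hD
  refine ⟨hG ▸ hN.fin, hG ▸ hN.card, fun e => ?_, ?_, ?_⟩
  · have := h e; simp only [flp_apply]; split_ifs <;> simpa using this
  · have := hN.nt; rwa [wt_flp] at this ⊢
  · have := hN.ib
    rwa [wt_flp, fr_flp' fun e _ => h e, hD, ← fr_flp' fun e _ => h e, ← wt_flp D'] at this

/-- the horizontal ray of dual edges which starts at the plaquette `p` -/
noncomputable def ray (p : Vx) : Ed → Bool := fun e => e.2 && decide (e.1.2 = p.2 ∧ p.1 < e.1.1)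

theorem par_ray (p : Vx) : par (ray p) = dl p := by
  funext v
  obtain ⟨a, b⟩ := v
  obtain ⟨c, d⟩ := p
  simp only [par, ray, edg, dl]
  by_cases h : b = d
  · subst h
    simp only [Matrix.cons_val_zero, Matrix.cons_val_one, Matrix.cons_val]
    by_cases h1 : c < a
    · have h2 : c < a + 1 := by omega
      have h3 : a ≠ c := by omega
      simp [h1, h2, h3]
    · by_cases h4 : a = c
      · subst h4
        simp
      · have h2 : ¬ c < a + 1 := by omega
        simp [h1, h2, h4]
  · simp [h]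

/-! ### measure preservation -/

theorem measurable_flp (D : Ed → Bool) : Measurable (flp D) := by
  refine measurable_pi_iff.2 fun e => ?_
  simp only [flp_apply]
  split_ifs
  · exact (measurable_pi_apply e).neg
  · exact measurable_pi_apply e

theorem mp_flp (μ : Measure ℝ) [IsProbabilityMeasure μ] (hsym : μ.map (fun x => -x) = μ)
    (D : Ed → Bool) : MeasurePreserving (flp D) (PP μ) (PP μ) := by
  refine ⟨measurable_flp D, ?_⟩
  have h1 : flp D = fun J e => (if D e then (fun x : ℝ => - x) else fun x => x) (J e) := by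
    funext J e; simp only [flp_apply]; split_ifs <;> rfl
  rw [h1]
  unfold PP
  rw [Measure.infinitePi_map_pi]
  · congr 1
    funext e
    split_ifs
    · exact hsym
    · exact Measure.map_id
  · intro e
    split_ifs
    · exact measurable_neg
    · exact measurable_id

theorem ae_flp {μ : Measure ℝ} [IsProbabilityMeasure μ] (hs : μ.map (fun x => - x) = μ)
    (D : Ed → Bool) {p : (Ed → ℝ) → Prop} (h : ∀ᵐ J ∂PP μ, p J) : ∀ᵐ J ∂PP μ, p (flp D J) :=
  (mp_flp μ hs D).quasiMeasurePreserving.ae h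

theorem ae_sh {μ : Measure ℝ} [IsProbabilityMeasure μ]
    (u : Vx) {p : (Ed → ℝ) → Prop} (h : ∀ᵐ J ∂PP μ, p J) : ∀ᵐ J ∂PP μ, p (sh u J) :=
  (mp_sh μ u).quasiMeasurePreserving.ae h

/-! ### zero-one law -/

/-- the permutation of the edges which gives the translation -/
def shPerm (u : Vx) : Equiv.Perm Ed where
  toFun e := (e.1 + u, e.2)
  invFun e := (e.1 - u, e.2)
  left_inv e := by simp
  right_inv e := by simp

theorem exists_shPerm_disjoint {u : Vx} (hu : u ≠ 0) (F : Finset Ed) :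
    ∃ n : ℕ, ∀ e ∈ F, shPerm (n • u) e ∉ F := by
  classical
  by_contra hcon
  push Not at hcon
  choose f hf hf' using hcon
  -- infinitely many `n` have the same pair
  have h1 : ∀ n, ((f n, shPerm (n • u) (f n)) : Ed × Ed) ∈ F ×ˢ F := fun n =>
    Finset.mk_mem_product (hf n) (hf' n)
  obtain ⟨m, n, hmn, heq⟩ : ∃ m n : ℕ, m ≠ n ∧
      ((f m, shPerm (m • u) (f m)) : Ed × Ed) = (f n, shPerm (n • u) (f n)) := by
    have := Finite.exists_ne_map_eq_of_infinite
      (fun n : ℕ => (⟨(f n, shPerm (n • u) (f n)), h1 n⟩ : {x // x ∈ F ×ˢ F}))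
    obtain ⟨m, n, hmn, h⟩ := this
    exact ⟨m, n, hmn, congrArg Subtype.val h⟩
  have h2 : f m = f n := congrArg Prod.fst heq
  have h3 : shPerm (m • u) (f m) = shPerm (n • u) (f n) := congrArg Prod.snd heq
  rw [h2] at h3
  have h4 : (f n).1 + m • u = (f n).1 + n • u := congrArg Prod.fst h3
  have h5 : m • u = n • u := add_left_cancel h4
  have h6 : ((m : ℤ) - n) • u = 0 := by
    rw [sub_smul, natCast_zsmul, natCast_zsmul, h5, sub_self]
  have h7 : (m : ℤ) - n ≠ 0 := sub_ne_zero.2 (by exact_mod_cast hmn)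
  exact hu ((smul_eq_zero.1 h6).resolve_left h7)

/-- **Zero-one law** for translation invariant events. -/
theorem zero_one_sh {μ : Measure ℝ} [IsProbabilityMeasure μ] {S : Set (Ed → ℝ)}
    (hS : MeasurableSet S) {u : Vx} (hu : u ≠ 0) (hinv : ∀ J, sh u J ∈ S ↔ J ∈ S) :
    PP μ S = 0 ∨ PP μ S = 1 := by
  have hn : ∀ (n : ℕ) (J : Ed → ℝ), sh (n • u) J ∈ S ↔ J ∈ S := by
    intro n
    induction n with
    | zero => intro J; rw [zero_smul, sh_zero]
    | succ n ih => intro J; rw [succ_nsmul, ← sh_sh, ih, hinv]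
  refine Pool.Agent.Helper42.EA.zero_one μ hS fun F => ?_
  obtain ⟨n, h⟩ := exists_shPerm_disjoint hu F
  exact ⟨shPerm (n • u), h, fun J => hn n J⟩

/-- Zero-one law for events which are translation invariant up to null sets. -/
theorem zero_one_sh_ae {μ : Measure ℝ} [IsProbabilityMeasure μ] {S : Set (Ed → ℝ)}
    (hS : NullMeasurableSet S (PP μ)) {u : Vx} (hu : u ≠ 0)
    (hinv : ∀ᵐ J ∂PP μ, sh u J ∈ S ↔ J ∈ S) : PP μ S = 0 ∨ PP μ S = 1 := by
  -- replace `S` by a strictly invariant set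
  set S0 : Set (Ed → ℝ) := toMeasurable (PP μ) S with hS0
  have hS0m : MeasurableSet S0 := measurableSet_toMeasurable _ _
  have hS0e : S0 =ᵐ[PP μ] S := hS.toMeasurable_ae_eq
  have hsm : Measurable (sh u : (Ed → ℝ) → (Ed → ℝ)) := measurable_sh u
  set T : Set (Ed → ℝ) := {J | ∃ N : ℕ, ∀ n ≥ N, sh (n • u) J ∈ S0} with hT
  have hTm : MeasurableSet T := by
    have : T = ⋃ N : ℕ, ⋂ n : ℕ, ⋂ (_ : n ≥ N), (sh (n • u)) ⁻¹' S0 := by
      ext J; simp [hT]
    rw [this]
    exact MeasurableSet.iUnion fun N => MeasurableSet.iInter fun n => MeasurableSet.iInter fun _ =>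
      measurable_sh _ hS0m
  have hTinv : ∀ J, sh u J ∈ T ↔ J ∈ T := by
    intro J
    constructor
    · rintro ⟨N, h⟩
      refine ⟨N + 1, fun n hn => ?_⟩
      obtain ⟨m, rfl⟩ : ∃ m, n = m + 1 := ⟨n - 1, by omega⟩
      have := h m (by omega)
      rw [sh_sh] at this
      rwa [succ_nsmul]
    · rintro ⟨N, h⟩
      refine ⟨N, fun n hn => ?_⟩
      have := h (n + 1) (by omega)
      rw [sh_sh]
      rwa [succ_nsmul] at this
  have hall : ∀ᵐ J ∂PP μ, ∀ n : ℕ, sh (n • u) J ∈ S0 ↔ J ∈ S0 := by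
    rw [ae_all_iff]
    have hmem : ∀ᵐ J ∂PP μ, J ∈ S0 ↔ J ∈ S := by
      filter_upwards [hS0e] with J hJ
      exact iff_of_eq hJ
    have hinv0 : ∀ᵐ J ∂PP μ, sh u J ∈ S0 ↔ J ∈ S0 := by
      filter_upwards [hmem, ae_sh u hmem, hinv] with J h1 h2 h3
      rw [h1, h2, h3]
    intro n
    induction n with
    | zero => exact Filter.Eventually.of_forall fun J => by rw [zero_smul, sh_zero]
    | succ n ih =>
      filter_upwards [ae_sh u ih, hinv0] with J h1 h2
      rw [succ_nsmul, ← sh_sh, h1, h2]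
  have hTS : T =ᵐ[PP μ] S := by
    have : T =ᵐ[PP μ] S0 := by
      filter_upwards [hall] with J hJ
      refine propext ?_
      constructor
      · rintro ⟨N, h⟩
        exact (hJ N).1 (h N le_rfl)
      · intro h
        exact ⟨0, fun n _ => (hJ n).2 h⟩
    exact this.trans hS0e
  rw [← measure_congr hTS]
  exact zero_one_sh hTm hu hTinv

end Pool.Agent.Helper60.TJ
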