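import Pool.Agent.Helper60.TJ.Basic

set_option autoImplicit false

/-! Measurability of the set of locally minimal T-joins and measurable selectors. -/

namespace Pool.Agent.Helper60.TJ

open MeasureTheory Set

/-! ### measurability in both variables -/

theorem measurable_par (v : Vx) : Measurable fun U : Ed → Bool => par U v := by
  have h : Measurable fun b : Bool × Bool × Bool × Bool =>
      xor (xor b.1 b.2.1) (xor b.2.2.1 b.2.2.2) := measurable_of_countable _
  have h2 : Measurable fun U : Ed → Bool =>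
      ((U (edg v 0), U (edg v 1), U (edg v 2), U (edg v 3)) : Bool × Bool × Bool × Bool) :=
    (measurable_pi_apply _).prodMk ((measurable_pi_apply _).prodMk
      ((measurable_pi_apply _).prodMk (measurable_pi_apply _)))
  exact h.comp h2

theorem measurable_sg : Measurable sg := measurable_of_countable _

theorem measurable_en_prod (C : Finset Ed) :
    Measurable fun q : (Ed → ℝ) × (Ed → Bool) => en q.1 q.2 C := by
  unfold en
  exact Finset.measurable_sum _ fun e _ => ((measurable_pi_apply e).comp measurable_fst).mul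
    (measurable_sg.comp ((measurable_pi_apply e).comp measurable_snd))

theorem measurable_wt : Measurable wt :=
  measurable_pi_lambda _ fun e => (measurable_pi_apply e).abs

theorem measurable_ng : Measurable ng := by
  refine measurable_pi_lambda _ fun e => ?_
  refine measurable_to_bool ?_
  have : (fun J : Ed → ℝ => ng J e) ⁻¹' {true} = {J | J e < 0} := by
    ext J; simp [ng]
  rw [this]
  exact measurableSet_lt (measurable_pi_apply e) measurable_const

theorem measurable_fr : Measurable fr :=
  measurable_pi_lambda _ fun v => (measurable_par v).comp measurable_ng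

/-- the constraints: a plaquette or a finite edge set -/
def cst (J : Ed → ℝ) (U : Ed → Bool) : Vx ⊕ Finset Ed → Prop
  | Sum.inl v => par U v = fr J v
  | Sum.inr C => IsCyc C → 0 ≤ en (wt J) U C

theorem mem_GJ_iff_cst {J : Ed → ℝ} {U : Ed → Bool} : U ∈ GJ J ↔ ∀ c, cst J U c := by
  unfold GJ GS
  rw [Set.mem_ofPred_eq]
  constructor
  · rintro ⟨h1, h2⟩ c
    cases c with
    | inl v => exact h1 v
    | inr C => exact h2 C
  · intro h
    exact ⟨fun v => h (Sum.inl v), fun C => h (Sum.inr C)⟩

theorem measurableSet_cst (c : Vx ⊕ Finset Ed) :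
    MeasurableSet {q : (Ed → ℝ) × (Ed → Bool) | cst q.1 q.2 c} := by
  cases c with
  | inl v =>
    exact measurableSet_eq_fun ((measurable_par v).comp measurable_snd)
      ((measurable_pi_apply v).comp (measurable_fr.comp measurable_fst))
  | inr C =>
    by_cases hC : IsCyc C
    · have : {q : (Ed → ℝ) × (Ed → Bool) | cst q.1 q.2 (Sum.inr C)}
          = {q | 0 ≤ en (wt q.1) q.2 C} := by
        ext q
        simp only [cst, mem_ofPred_eq]
        exact ⟨fun h => h hC, fun h _ => h⟩
      rw [this]
      refine measurableSet_le measurable_const ?_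
      exact (measurable_en_prod C).comp ((measurable_wt.comp measurable_fst).prodMk measurable_snd)
    · have : {q : (Ed → ℝ) × (Ed → Bool) | cst q.1 q.2 (Sum.inr C)} = univ := by
        ext q
        simp only [cst, mem_ofPred_eq, mem_univ, iff_true]
        exact fun h => absurd h hC
      rw [this]
      exact MeasurableSet.univ

theorem measurableSet_GJ : MeasurableSet {q : (Ed → ℝ) × (Ed → Bool) | q.2 ∈ GJ q.1} := by
  have : {q : (Ed → ℝ) × (Ed → Bool) | q.2 ∈ GJ q.1}
      = ⋂ c, {q : (Ed → ℝ) × (Ed → Bool) | cst q.1 q.2 c} := by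
    ext q
    simp only [mem_ofPred_eq, mem_iInter]
    exact mem_GJ_iff_cst
  rw [this]
  exact MeasurableSet.iInter fun c => measurableSet_cst c

/-! ### constraints as sets of T-joins -/

/-- the edges on which a constraint depends -/
def supp : Vx ⊕ Finset Ed → Finset Ed
  | Sum.inl v => {edg v 0, edg v 1, edg v 2, edg v 3}
  | Sum.inr C => C

theorem cst_congr {J : Ed → ℝ} {U U' : Ed → Bool} {c : Vx ⊕ Finset Ed}
    (h : ∀ e ∈ supp c, U e = U' e) : cst J U c ↔ cst J U' c := by
  cases c with
  | inl v =>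
    have : par U v = par U' v := by
      unfold par
      rw [h _ (by simp [supp]), h _ (by simp [supp]), h _ (by simp [supp]), h _ (by simp [supp])]
    simp only [cst, this]
  | inr C =>
    have : en (wt J) U C = en (wt J) U' C := en_congr h
    simp only [cst, this]

theorem isClopen_local {p : (Ed → Bool) → Prop} (F : Finset Ed)
    (hp : ∀ U U' : Ed → Bool, (∀ e ∈ F, U e = U' e) → (p U ↔ p U')) : IsClopen {U | p U} := by
  have h1 : ∀ q : (Ed → Bool) → Prop, (∀ U U' : Ed → Bool, (∀ e ∈ F, U e = U' e) → (q U ↔ q U')) →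
      IsOpen {U | q U} := by
    intro q hq
    rw [isOpen_iff_forall_mem_open]
    intro U hU
    refine ⟨{U' | ∀ e ∈ F, U' e = U e}, ?_, ?_, ?_⟩
    · intro U' hU'
      exact (hq U U' fun e he => (hU' e he).symm).1 hU
    · have : {U' : Ed → Bool | ∀ e ∈ F, U' e = U e}
          = ⋂ e ∈ F, (fun U' : Ed → Bool => U' e) ⁻¹' {U e} := by
        ext U'; simp
      rw [this]
      exact isOpen_biInter_finset fun e _ => (isOpen_discrete _).preimage (continuous_apply e)
    · intro e _; rfl
  refine ⟨?_, h1 p hp⟩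
  rw [← isOpen_compl_iff]
  exact h1 (fun U => ¬ p U) fun U U' h => not_congr (hp U U' h)

/-- every pattern is given by a finite edge set -/
theorem exists_ind (F : Finset Ed) (U : Ed → Bool) : ∃ P : Finset Ed, ∀ e ∈ F, ind P e = U e := by
  refine ⟨F.filter (fun e => U e = true), fun e he => ?_⟩
  unfold ind
  cases h : U e <;> simp [he, h]

/-- the existence of a locally minimal T-join with a local property is measurable -/
theorem measurableSet_exists {p : (Ed → Bool) → Prop} (F : Finset Ed)
    (hp : ∀ U U' : Ed → Bool, (∀ e ∈ F, U e = U' e) → (p U ↔ p U')) :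
    MeasurableSet {J : Ed → ℝ | ∃ U ∈ GJ J, p U} := by
  classical
  obtain ⟨g, hg⟩ := exists_surjective_nat (Vx ⊕ Finset Ed)
  have key : {J : Ed → ℝ | ∃ U ∈ GJ J, p U} = ⋂ N : ℕ, ⋃ P : Finset Ed,
      {J : Ed → ℝ | p (ind P) ∧ ∀ n < N, cst J (ind P) (g n)} := by
    ext J
    simp only [mem_ofPred_eq, mem_iInter, mem_iUnion]
    constructor
    · rintro ⟨U, hU, hpU⟩ N
      obtain ⟨P, hP⟩ := exists_ind (F ∪ (Finset.range N).biUnion fun n => supp (g n)) U
      refine ⟨P, ?_, ?_⟩
      · exact (hp _ _ fun e he => hP e (Finset.mem_union_left _ he)).2 hpU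
      · intro n hn
        refine (cst_congr fun e he => hP e (Finset.mem_union_right _ ?_)).2 (mem_GJ_iff_cst.1 hU _)
        exact Finset.mem_biUnion.2 ⟨n, Finset.mem_range.2 hn, he⟩
    · intro h
      have hne : (⋂ N : ℕ, ({U : Ed → Bool | p U ∧ ∀ n < N, cst J U (g n)})).Nonempty := by
        have hcl : ∀ N : ℕ, IsClosed {U : Ed → Bool | p U ∧ ∀ n < N, cst J U (g n)} := by
          intro N
          refine IsClosed.inter (isClopen_local F hp).1 ?_
          have : {U : Ed → Bool | ∀ n < N, cst J U (g n)}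
              = ⋂ n : ℕ, ⋂ _ : n < N, {U : Ed → Bool | cst J U (g n)} := by
            ext U; simp
          show IsClosed {U : Ed → Bool | ∀ n < N, cst J U (g n)}
          rw [this]
          exact isClosed_iInter fun n => isClosed_iInter fun _ =>
            (isClopen_local (supp (g n)) fun U U' h => cst_congr h).1
        refine IsCompact.nonempty_iInter_of_sequence_nonempty_isCompact_isClosed _ ?_ ?_ ?_ hcl
        · intro N U hU
          exact ⟨hU.1, fun n hn => hU.2 n (by omega)⟩
        · intro N
          obtain ⟨P, hP⟩ := h N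
          exact ⟨ind P, hP⟩
        · exact (hcl 0).isCompact
      obtain ⟨U, hU⟩ := hne
      rw [mem_iInter] at hU
      refine ⟨U, ?_, (hU 0).1⟩
      rw [mem_GJ_iff_cst]
      intro c
      obtain ⟨n, rfl⟩ := hg c
      exact (hU (n + 1)).2 n (by omega)
  rw [key]
  refine MeasurableSet.iInter fun N => MeasurableSet.iUnion fun P => ?_
  have h1 : {J : Ed → ℝ | p (ind P) ∧ ∀ n < N, cst J (ind P) (g n)}
      = {J : Ed → ℝ | p (ind P)} ∩ ⋂ n : ℕ, ⋂ _ : n < N, {J : Ed → ℝ | cst J (ind P) (g n)} := by
    ext J; simp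
  rw [h1]
  refine (MeasurableSet.const _).inter (MeasurableSet.iInter fun n => MeasurableSet.iInter fun _ => ?_)
  exact (measurable_id.prodMk measurable_const) (measurableSet_cst (g n))

/-! ### selectors -/

/-- Measurable selection from a countable family. -/
theorem exists_countable_sel {Ω ι : Type*} [MeasurableSpace Ω] [Countable ι] [Nonempty ι]
    (S : ι → Set Ω) (hS : ∀ i, MeasurableSet (S i)) :
    ∃ sel : Ω → ι, (∀ ω, (∃ i, ω ∈ S i) → ω ∈ S (sel ω)) ∧ ∀ i, MeasurableSet {ω | sel ω = i} := by
  classical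
  obtain ⟨g, hg⟩ := exists_surjective_nat ι
  let S' : ℕ → Set Ω := fun n => S (g n) ∪ (⋃ i, S i)ᶜ
  have hS' : ∀ n, MeasurableSet (S' n) := fun n => (hS _).union (MeasurableSet.iUnion hS).compl
  have hp : ∀ ω, ∃ n, ω ∈ S' n := by
    intro ω
    by_cases h : ∃ i, ω ∈ S i
    · obtain ⟨i, hi⟩ := h
      obtain ⟨n, rfl⟩ := hg i
      exact ⟨n, Or.inl hi⟩
    · exact ⟨0, Or.inr fun h' => h (mem_iUnion.1 h')⟩
  have hm : Measurable (fun ω => Nat.find (hp ω)) := measurable_find hp hS'
  refine ⟨fun ω => g (Nat.find (hp ω)), fun ω hω => ?_, ?_⟩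
  · rcases Nat.find_spec (hp ω) with h | h
    · exact h
    · exact absurd (mem_iUnion.2 hω) h
  · intro i
    have : {ω | g (Nat.find (hp ω)) = i} = (fun ω => Nat.find (hp ω)) ⁻¹' {n | g n = i} := rfl
    rw [this]
    exact hm (MeasurableSpace.measurableSet_top)

/-- A finite set of edges that separates the elements of a finite set. -/
theorem exists_separating {S : Set (Ed → Bool)} (hS : S.Finite) :
    ∃ F : Finset Ed, ∀ U ∈ S, ∀ U' ∈ S, U ≠ U' → ∃ e ∈ F, U e ≠ U' e := by
  classical
  have h : ∀ q : (Ed → Bool) × (Ed → Bool), ∃ e, q.1 ≠ q.2 → q.1 e ≠ q.2 e := by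
    intro q
    by_cases h : q.1 = q.2
    · exact ⟨((0, 0), false), fun h' => absurd h h'⟩
    · obtain ⟨e, he⟩ := Function.ne_iff.1 h
      exact ⟨e, fun _ => he⟩
  choose e he using h
  refine ⟨((hS.prod hS).toFinset).image e, ?_⟩
  intro U hU U' hU' hne
  refine ⟨e (U, U'), ?_, he (U, U') hne⟩
  rw [Finset.mem_image]
  exact ⟨(U, U'), (Set.Finite.mem_toFinset _).2 ⟨hU, hU'⟩, rfl⟩

/-- Measurable selectors for the elements of `GJ J`. -/
theorem exists_selectors (k : ℕ) : ∃ s : Fin k → (Ed → ℝ) → (Ed → Bool),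
    (∀ i, Measurable (s i)) ∧
    ∀ J, (GJ J).Finite → (GJ J).ncard = k → (∀ i, s i J ∈ GJ J) ∧
      (∀ i j, i ≠ j → s i J ≠ s j J) ∧ ∀ U ∈ GJ J, ∃ i, s i J = U := by
  classical
  let S : (Finset Ed × (Fin k → Finset Ed)) → Set (Ed → ℝ) := fun d =>
    {J | (∀ i j, i ≠ j → ∃ e ∈ d.1, ind (d.2 i) e ≠ ind (d.2 j) e) ∧
      ∀ i, ∃ U ∈ GJ J, ∀ e ∈ d.1, U e = ind (d.2 i) e}
  have hmeas : ∀ (F P : Finset Ed), MeasurableSet {J : Ed → ℝ | ∃ U ∈ GJ J, ∀ e ∈ F, U e = ind P e} := by
    intro F P
    exact measurableSet_exists F fun U U' h => forall₂_congr fun e he => by rw [h e he]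
  have hS : ∀ d, MeasurableSet (S d) := by
    intro d
    have : S d = {J | ∀ i j, i ≠ j → ∃ e ∈ d.1, ind (d.2 i) e ≠ ind (d.2 j) e} ∩
        ⋂ i, {J | ∃ U ∈ GJ J, ∀ e ∈ d.1, U e = ind (d.2 i) e} := by
      ext J; simp [S]
    rw [this]
    exact (MeasurableSet.const _).inter (MeasurableSet.iInter fun i => hmeas _ _)
  obtain ⟨sel, hsel, hselm⟩ := exists_countable_sel S hS
  let s : Fin k → (Ed → ℝ) → (Ed → Bool) := fun i J e =>
    decide (∃ U ∈ GJ J, (∀ f ∈ (sel J).1, U f = ind ((sel J).2 i) f) ∧ U e = true)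
  refine ⟨s, ?_, ?_⟩
  · intro i
    refine measurable_pi_lambda _ fun e => measurable_to_bool ?_
    have : (fun J : Ed → ℝ => s i J e) ⁻¹' {true} = ⋃ d, ({J | sel J = d} ∩
        {J | ∃ U ∈ GJ J, (∀ f ∈ d.1, U f = ind (d.2 i) f) ∧ U e = true}) := by
      ext J
      simp only [mem_preimage, mem_singleton_iff, s, decide_eq_true_eq, mem_iUnion, mem_inter_iff,
        mem_ofPred_eq]
      constructor
      · intro h; exact ⟨sel J, rfl, h⟩
      · rintro ⟨d, hd, h⟩; subst hd; exact h
    rw [this]
    refine MeasurableSet.iUnion fun d => (hselm d).inter ?_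
    refine measurableSet_exists (insert e d.1) fun U U' h => ?_
    refine and_congr (forall₂_congr fun f hf => by rw [h f (Finset.mem_insert_of_mem hf)]) ?_
    rw [h e (Finset.mem_insert_self _ _)]
  · intro J hfin hcard
    -- the selected datum is good
    have hex : ∃ d, J ∈ S d := by
      obtain ⟨F, hF⟩ := exists_separating hfin
      have hc : (hfin.toFinset).card = k := by
        rw [← Set.ncard_eq_toFinset_card (GJ J) hfin]; exact hcard
      let eq1 := (hfin.toFinset).equivFinOfCardEq hc
      have hU : ∀ i : Fin k, ∃ P : Finset Ed, ∀ e ∈ F, ind P e = (eq1.symm i : Ed → Bool) e :=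
        fun i => exists_ind F _
      choose P hP using hU
      refine ⟨(F, P), ?_, ?_⟩
      · intro i j hij
        have h1 : (eq1.symm i : Ed → Bool) ∈ GJ J := by
          have := (eq1.symm i).2; rwa [Set.Finite.mem_toFinset] at this
        have h2 : (eq1.symm j : Ed → Bool) ∈ GJ J := by
          have := (eq1.symm j).2; rwa [Set.Finite.mem_toFinset] at this
        have h3 : (eq1.symm i : Ed → Bool) ≠ (eq1.symm j : Ed → Bool) := by
          intro h; exact hij (eq1.symm.injective (Subtype.ext h))
        obtain ⟨e, he, hne⟩ := hF _ h1 _ h2 h3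
        exact ⟨e, he, by rw [hP i e he, hP j e he]; exact hne⟩
      · intro i
        refine ⟨(eq1.symm i : Ed → Bool), ?_, fun e he => (hP i e he).symm⟩
        have := (eq1.symm i).2; rwa [Set.Finite.mem_toFinset] at this
    obtain ⟨hd1, hd2⟩ := hsel J hex
    choose V hV1 hV2 using hd2
    have hVinj : Function.Injective V := by
      intro i j hij
      by_contra hne
      obtain ⟨e, he, hne'⟩ := hd1 i j hne
      exact hne' (by rw [← hV2 i e he, ← hV2 j e he, hij])
    have hVsurj : ∀ U ∈ GJ J, ∃ i, V i = U := by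
      have h1 : (Finset.univ.image V) ⊆ hfin.toFinset := by
        intro U hU
        rw [Finset.mem_image] at hU
        obtain ⟨i, -, rfl⟩ := hU
        exact (Set.Finite.mem_toFinset _).2 (hV1 i)
      have h2 : (Finset.univ.image V).card = k := by
        rw [Finset.card_image_of_injective _ hVinj, Finset.card_univ, Fintype.card_fin]
      have h3 : (hfin.toFinset).card = k := by
        rw [← Set.ncard_eq_toFinset_card (GJ J) hfin]; exact hcard
      have h4 := Finset.eq_of_subset_of_card_le h1 (by rw [h2, h3])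
      intro U hU
      have h5 : U ∈ hfin.toFinset := (Set.Finite.mem_toFinset _).2 hU
      rw [← h4, Finset.mem_image] at h5
      obtain ⟨i, -, hi⟩ := h5
      exact ⟨i, hi⟩
    have hsV : ∀ i, s i J = V i := by
      intro i
      funext e
      have huniq : ∀ U ∈ GJ J, (∀ f ∈ (sel J).1, U f = ind ((sel J).2 i) f) → U = V i := by
        intro U hU hUf
        obtain ⟨j, rfl⟩ := hVsurj U hU
        by_contra hne
        have hij : j ≠ i := fun h => hne (by rw [h])
        obtain ⟨e, he, hne'⟩ := hd1 j i hij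
        exact hne' (by rw [← hV2 j e he, hUf e he])
      by_cases hve : V i e = true
      · rw [hve]
        simp only [s, decide_eq_true_eq]
        exact ⟨V i, hV1 i, hV2 i, hve⟩
      · have hve' : V i e = false := by simpa using hve
        rw [hve']
        simp only [s, decide_eq_false_iff_not]
        rintro ⟨U, hU, hUf, hUe⟩
        rw [huniq U hU hUf] at hUe
        exact hve hUe
    refine ⟨fun i => by rw [hsV]; exact hV1 i, fun i j hij => ?_, fun U hU => ?_⟩
    · rw [hsV, hsV]; exact fun h => hij (hVinj h)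
    · obtain ⟨i, hi⟩ := hVsurj U hU
      exact ⟨i, by rw [hsV]; exact hi⟩

end Pool.Agent.Helper60.TJ
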