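import Pool.Agent.Helper60.TJ.F3
import Pool.Agent.Helper60.TJ.F2
import Pool.Agent.Helper60.TJ.C0

set_option autoImplicit false

/-! The two-sided walk along a wall, indexed by the integers. -/

namespace Pool.Agent.Helper60.TJ

open MeasureTheory

/-! ### the group action -/

theorem measurableSet_GY : MeasurableSet {y : YY | GY y} := by
  have h1 : MeasurableSet {y : YY | Deg2 (wl y.1)} :=
    (measurable_wl.comp measurable_fst) measurableSet_Deg2
  have h2 : MeasurableSet {y : YY | wl y.1 (edg 0 y.2) = true} := by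
    refine measurableSet_eq_fun ?_ measurable_const
    refine measurable_from_prod_countable_left fun d => ?_
    exact (measurable_coord (edg 0 d)).comp measurable_wl
  have h3 : MeasurableSet {y : YY | ∀ C : Finset Ed, IsCyc C → (∀ e ∈ C, wl y.1 e = true) → C = ∅} := by
    have : {y : YY | ∀ C : Finset Ed, IsCyc C → (∀ e ∈ C, wl y.1 e = true) → C = ∅} =
        ⋂ C : Finset Ed, ({_y : YY | ¬ IsCyc C} ∪ ({y : YY | ∀ e ∈ C, wl y.1 e = true}ᶜ ∪
          {_y : YY | C = ∅})) := by
      ext y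
      simp only [Set.mem_ofPred_eq, Set.mem_iInter, Set.mem_union, Set.mem_compl_iff]
      refine forall_congr' fun C => ?_
      tauto
    rw [this]
    refine MeasurableSet.iInter fun C => (MeasurableSet.const _).union (MeasurableSet.union ?_
      (MeasurableSet.const _))
    refine MeasurableSet.compl ?_
    have : {y : YY | ∀ e ∈ C, wl y.1 e = true} = ⋂ e ∈ C, {y : YY | wl y.1 e = true} := by
      ext y; simp
    rw [this]
    exact Finset.measurableSet_biInter _ fun e _ =>
      (measurable_wl.comp measurable_fst) (measurableSet_coord e true)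
  exact h1.inter (h2.inter h3)

/-- the space of good points -/
abbrev GG2 := {y : YY // GY y}

/-- one step along the wall as a permutation of the good points -/
def Te : Equiv.Perm GG2 where
  toFun y := ⟨Th y.1, y.2.th⟩
  invFun y := ⟨rv (Th (rv y.1)), y.2.rv.th.rv⟩
  left_inv y := Subtype.ext (th_inv' y.2)
  right_inv y := Subtype.ext (th_inv y.2)

open Classical in
/-- the two-sided walk: `k` steps along the wall, for an integer `k` -/
noncomputable def Tz (k : ℤ) (y : YY) : YY := if h : GY y then ((Te ^ k) ⟨y, h⟩ : GG2).1 else y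

theorem Tz_of_GY {k : ℤ} {y : YY} (h : GY y) : Tz k y = ((Te ^ k) ⟨y, h⟩ : GG2).1 := by
  unfold Tz; rw [dif_pos h]

theorem Tz_of_not {k : ℤ} {y : YY} (h : ¬ GY y) : Tz k y = y := by
  unfold Tz; rw [dif_neg h]

theorem GY_Tz {k : ℤ} {y : YY} (h : GY y) : GY (Tz k y) := by
  rw [Tz_of_GY h]; exact ((Te ^ k) ⟨y, h⟩ : GG2).2

theorem GY_Tz_iff {k : ℤ} {y : YY} : GY (Tz k y) ↔ GY y := by
  by_cases h : GY y
  · exact ⟨fun _ => h, fun _ => GY_Tz h⟩
  · rw [Tz_of_not h]

theorem Tz_zero (y : YY) : Tz 0 y = y := by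
  by_cases h : GY y
  · rw [Tz_of_GY h]; simp
  · exact Tz_of_not h

theorem Tz_add (k l : ℤ) (y : YY) : Tz (k + l) y = Tz k (Tz l y) := by
  by_cases h : GY y
  · rw [Tz_of_GY (GY_Tz h), Tz_of_GY h, zpow_add, Equiv.Perm.mul_apply]
    congr 2
    exact Subtype.ext (Tz_of_GY h).symm
  · rw [Tz_of_not h, Tz_of_not h, Tz_of_not h]

theorem Tz_one {y : YY} (h : GY y) : Tz 1 y = Th y := by
  rw [Tz_of_GY h, zpow_one]; rfl

theorem Tz_neg_one {y : YY} (h : GY y) : Tz (-1) y = rv (Th (rv y)) := by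
  rw [Tz_of_GY h, zpow_neg_one]; rfl

theorem Tz_natCast {y : YY} (h : GY y) (n : ℕ) : Tz (n : ℤ) y = Th^[n] y := by
  induction n with
  | zero => simp [Tz_zero]
  | succ n ih =>
    rw [Function.iterate_succ_apply', ← ih]
    have h1 : ((n + 1 : ℕ) : ℤ) = 1 + (n : ℤ) := by push_cast; ring
    rw [h1, Tz_add, Tz_one (GY_Tz h)]

theorem Tz_neg_natCast {y : YY} (h : GY y) (n : ℕ) : Tz (-(n : ℤ)) y = rv (Th^[n] (rv y)) := by
  induction n with
  | zero => simp [Tz_zero, rv_rv h]
  | succ n ih =>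
    have h1 : (-((n + 1 : ℕ) : ℤ)) = -1 + (-(n : ℤ)) := by push_cast; ring
    have h2 : GY (Th^[n] (rv y)) := by
      rw [← Tz_natCast h.rv]; exact GY_Tz h.rv
    rw [h1, Tz_add, Tz_neg_one (GY_Tz h), ih, rv_rv h2, Function.iterate_succ_apply']

/-! ### invariance -/

theorem measurable_Tz (k : ℤ) : Measurable (Tz k) := by
  classical
  rcases Int.eq_nat_or_neg k with ⟨n, rfl | rfl⟩
  · have : Tz (n : ℤ) = fun y => if GY y then Th^[n] y else y := by
      funext y
      by_cases h : GY y
      · rw [if_pos h, Tz_natCast h]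
      · rw [if_neg h, Tz_of_not h]
    rw [this]
    exact Measurable.ite measurableSet_GY (measurable_Th.iterate n) measurable_id
  · have : Tz (-(n : ℤ)) = fun y => if GY y then rv (Th^[n] (rv y)) else y := by
      funext y
      by_cases h : GY y
      · rw [if_pos h, Tz_neg_natCast h]
      · rw [if_neg h, Tz_of_not h]
    rw [this]
    exact Measurable.ite measurableSet_GY
      (measurable_rv.comp ((measurable_Th.iterate n).comp measurable_rv)) measurable_id

theorem mp_Tz {μ : Measure ℝ} [IsProbabilityMeasure μ] {k : ℕ} {Q : Measure XX}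
    (hQ : IsQ μ k Q) (n : ℤ) : MeasurePreserving (Tz n) (nuM Q) (nuM Q) := by
  refine ⟨measurable_Tz n, ?_⟩
  rcases Int.eq_nat_or_neg n with ⟨m, rfl | rfl⟩
  · have h1 : Tz (m : ℤ) =ᵐ[nuM Q] Th^[m] := by
      filter_upwards [nu_ae_GY hQ] with y hy
      exact Tz_natCast hy m
    rw [Measure.map_congr h1]
    exact ((mp_Th hQ).iterate m).map_eq
  · have h1 : Tz (-(m : ℤ)) =ᵐ[nuM Q] (rv ∘ Th^[m] ∘ rv) := by
      filter_upwards [nu_ae_GY hQ] with y hy
      exact Tz_neg_natCast hy m
    rw [Measure.map_congr h1]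
    exact ((mp_rv hQ).comp (((mp_Th hQ).iterate m).comp (mp_rv hQ))).map_eq

/-! ### reversal -/

theorem fst_rv (y : YY) : (rv y).1 = y.1 := rfl

theorem xor_of_GY {y : YY} (h : GY y) : wl y.1 (edg 0 y.2) = true := h.2.1

theorem GY_flip {y : YY} (h : GY y) : GY (shX (stp y.2) y.1, opp y.2) := by
  have h1 := h.th
  refine ⟨h1.1, ?_, h1.2.2⟩
  show wl (shX (stp y.2) y.1) (edg 0 (opp y.2)) = true
  rw [wl_shX, sh_edg, edg_opp]
  exact h.2.1

theorem Th_eq_rv (y : YY) : Th y = rv (shX (stp y.2) y.1, opp y.2) := by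
  unfold Th rv oth opp
  have h : y.2 + 2 + 2 = y.2 := by
    rw [add_assoc]
    exact add_zero y.2
  simp only
  rw [h]

theorem rv_Th {y : YY} (h : GY y) : rv (Th y) = (shX (stp y.2) y.1, opp y.2) := by
  rw [Th_eq_rv, rv_rv (GY_flip h)]

/-! ### positions -/

/-- position after `k` steps, `k` an integer -/
noncomputable def posz (y : YY) (k : ℤ) : Vx := if 0 ≤ k then pos y k.toNat else pos (rv y) (-k).toNat

theorem posz_natCast (y : YY) (n : ℕ) : posz y (n : ℤ) = pos y n := by
  unfold posz; rw [if_pos (by positivity)]; simp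

theorem posz_neg_natCast (y : YY) (n : ℕ) : posz y (-(n : ℤ)) = pos (rv y) n := by
  unfold posz
  by_cases h : 0 ≤ (-(n : ℤ))
  · have : n = 0 := by omega
    subst this
    simp [pos]
  · rw [if_neg h]; simp

@[simp] theorem posz_zero (y : YY) : posz y 0 = 0 := posz_natCast y 0

theorem Tz_fst {y : YY} (h : GY y) (k : ℤ) : (Tz k y).1 = shX (posz y k) y.1 := by
  rcases Int.eq_nat_or_neg k with ⟨n, rfl | rfl⟩
  · rw [Tz_natCast h, posz_natCast, th_iterate_fst]
  · rw [Tz_neg_natCast h, posz_neg_natCast, fst_rv, th_iterate_fst, fst_rv]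

theorem posz_step {y : YY} (h : GY y) (k : ℤ) : posz y (k + 1) = posz y k + stp (Tz k y).2 := by
  rcases Int.eq_nat_or_neg k with ⟨n, rfl | rfl⟩
  · have : ((n : ℤ) + 1) = ((n + 1 : ℕ) : ℤ) := by push_cast; ring
    rw [this, posz_natCast, posz_natCast, Tz_natCast h]
    rfl
  · cases n with
    | zero =>
      have : (-((0 : ℕ) : ℤ) + 1) = ((1 : ℕ) : ℤ) := by norm_num
      rw [this, posz_natCast, posz_neg_natCast]
      simp [pos, Tz_zero]
    | succ n =>
      have h1 : (-((n + 1 : ℕ) : ℤ) + 1) = -(n : ℤ) := by push_cast; ring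
      have h2 : GY (Th^[n] (rv y)) := by
        rw [← Tz_natCast h.rv]; exact GY_Tz h.rv
      rw [h1, posz_neg_natCast, posz_neg_natCast, Tz_neg_natCast h, Function.iterate_succ_apply',
        rv_Th h2]
      simp only [pos]
      rw [add_assoc, stp_opp, add_neg_cancel, add_zero]

theorem posz_Tz {y : YY} (h : GY y) (k l : ℤ) : posz (Tz k y) l = posz y (k + l) - posz y k := by
  have hstep : ∀ l, posz (Tz k y) (l + 1) - posz y (k + (l + 1)) = posz (Tz k y) l - posz y (k + l) := by
    intro l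
    have h2 : posz (Tz k y) (l + 1) = posz (Tz k y) l + stp (Tz l (Tz k y)).2 := posz_step (GY_Tz h) l
    have h3 : posz y (k + l + 1) = posz y (k + l) + stp (Tz (k + l) y).2 := posz_step h (k + l)
    rw [← Tz_add, add_comm l k] at h2
    rw [← add_assoc k l 1, h2, h3]
    abel
  have hall : ∀ l, posz (Tz k y) l - posz y (k + l) = posz (Tz k y) 0 - posz y (k + 0) := by
    intro l
    induction l using Int.induction_on with
    | zero => rfl
    | succ n ih => rw [hstep, ih]
    | pred n ih =>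
      rw [← ih]
      have := hstep (-(n : ℤ) - 1)
      rw [sub_add_cancel] at this
      exact this.symm
  have := hall l
  rw [posz_zero, add_zero, zero_sub] at this
  rw [sub_eq_iff_eq_add] at this
  rw [this]; abel

/-- the `k`-th edge of the wall -/
noncomputable def wedgez (y : YY) (k : ℤ) : Ed := edg (posz y k) (Tz k y).2

theorem wedgez_natCast {y : YY} (h : GY y) (n : ℕ) : wedgez y (n : ℤ) = wedge y n := by
  unfold wedgez wedge; rw [posz_natCast, Tz_natCast h]

theorem wedgez_mem {y : YY} (h : GY y) (k : ℤ) : wl y.1 (wedgez y k) = true := by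
  have h1 := (GY_Tz (k := k) h).2.1
  rw [Tz_fst h, wl_shX, sh_edg, zero_add] at h1
  exact h1

/-- the edge number `k`, seen from its other end point -/
theorem wedgez_eq_opp {y : YY} (h : GY y) (k : ℤ) :
    wedgez y k = edg (posz y (k + 1)) (opp (Tz k y).2) := by
  unfold wedgez
  rw [posz_step h, edg_opp]

/-- the walk in the reversed direction -/
theorem rv_Tz {y : YY} (h : GY y) (k : ℤ) : Tz k (rv y) = rv (Tz (-k) y) := by
  rcases Int.eq_nat_or_neg k with ⟨n, rfl | rfl⟩
  · rw [Tz_natCast h.rv, Tz_neg_natCast h, rv_rv]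
    rw [← Tz_natCast h.rv]; exact GY_Tz h.rv
  · rw [Tz_neg_natCast h.rv, neg_neg, Tz_natCast h, rv_rv h]

theorem posz_rv {y : YY} (h : GY y) (k : ℤ) : posz (rv y) k = posz y (-k) := by
  rcases Int.eq_nat_or_neg k with ⟨n, rfl | rfl⟩
  · rw [posz_natCast, posz_neg_natCast]
  · rw [posz_neg_natCast, neg_neg, posz_natCast, rv_rv h]

theorem wedge_rv {y : YY} (h : GY y) (n : ℕ) : wedge (rv y) n = wedgez y (-(n : ℤ) - 1) := by
  have h1 : GY (Th^[n] (rv y)) := by
    rw [← Tz_natCast h.rv]; exact GY_Tz h.rv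
  have h2 : (-(n : ℤ) - 1) = -((n + 1 : ℕ) : ℤ) := by push_cast; ring
  rw [wedgez_eq_opp h, sub_add_cancel, posz_neg_natCast, h2, Tz_neg_natCast h,
    Function.iterate_succ_apply', rv_Th h1, opp_opp]
  rfl

end Pool.Agent.Helper60.TJ
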