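import Pool.Agent.Helper59.TJ.RecM
import Pool.Agent.Helper66.TJ.ZPath
import Pool.Agent.Helper60.TJ.E2

set_option autoImplicit false

/-! The two half walls. -/

namespace Pool.Agent.Helper60.TJ

open MeasureTheory

/-! ### the wall is a two-sided path -/

theorem edg_eq_two {v v' : Vx} {d d' : Dir} (h : edg v d = edg v' d') :
    (v = v' ∧ d = d') ∨ (v' = v + stp d ∧ d' = opp d) := by
  obtain ⟨x, y⟩ := v
  obtain ⟨x', y'⟩ := v'
  fin_cases d <;> fin_cases d' <;> simp [edg, stp, opp] at h ⊢ <;> omega

theorem posz_injective {y : YY} (h : GY y) : Function.Injective (posz y) := by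
  have key : ∀ k l : ℤ, k < l → posz y k ≠ posz y l := by
    intro k l hkl heq
    have h1 : posz (Tz k y) (l - k) = 0 := by
      rw [posz_Tz h, add_sub_cancel, heq, sub_self]
    obtain ⟨n, hn⟩ : ∃ n : ℕ, l - k = (n : ℤ) := ⟨(l - k).toNat, by omega⟩
    rw [hn, posz_natCast] at h1
    have h2 : n = 0 := pos_injective (GY_Tz h) (by rw [h1]; rfl)
    omega
  intro k l heq
  rcases lt_trichotomy k l with h1 | h1 | h1
  · exact absurd heq (key k l h1)
  · exact h1
  · exact absurd heq.symm (key l k h1)

theorem wedgez_injective {y : YY} (h : GY y) : Function.Injective (wedgez y) := by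
  intro k l heq
  have heq' : edg (posz y k) (Tz k y).2 = edg (posz y l) (Tz l y).2 := heq
  rcases edg_eq_two heq' with ⟨h1, _⟩ | ⟨h1, h2⟩
  · exact posz_injective h h1
  · exfalso
    have h3 : l = k + 1 := posz_injective h (by rw [h1, posz_step h])
    have h4 : posz y (l + 1) = posz y k := by
      rw [posz_step h, h1, h2, stp_opp]; abel
    have h5 := posz_injective h h4
    omega

theorem oth_spec' {W : Ed → Bool} (h : Deg2 W) {v : Vx} {d : Dir}
    (hd : W (edg v d) = true) :
    W (edg v (oth W v d)) = true ∧ oth W v d ≠ d ∧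
      ∀ d', W (edg v d') = true → d' ≠ d → d' = oth W v d := by
  have aux : ∀ (f : Fin 4 → Bool) (d : Fin 4),
    xor (xor (f 0) (f 1)) (xor (f 2) (f 3)) = false → (∃ d, f d = false) → f d = true →
    (f (if f (d + 2) then d + 2 else if f (d + 2 + 1) then d + 2 + 1 else d + 2 + 3) = true ∧
      (if f (d + 2) then d + 2 else if f (d + 2 + 1) then d + 2 + 1 else d + 2 + 3) ≠ d ∧
      ∀ d', f d' = true → d' ≠ d →
        d' = (if f (d + 2) then d + 2 else if f (d + 2 + 1) then d + 2 + 1 else d + 2 + 3)) := by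
    decide
  exact aux (fun d => W (edg v d)) d (h.1 v) (h.2 v) hd

/-- the edges of the wall at a vertex of the walk -/
theorem eq_wedgez_of_posz {y : YY} (h : GY y) {k : ℤ} {d : Dir}
    (hd : wl y.1 (edg (posz y k) d) = true) :
    edg (posz y k) d = wedgez y k ∨ edg (posz y k) d = wedgez y (k - 1) := by
  by_cases h1 : d = (Tz k y).2
  · left; rw [h1]; rfl
  · right
    have hk : wl y.1 (edg (posz y k) (Tz k y).2) = true := wedgez_mem h k
    have hk' : wl y.1 (edg (posz y k) (opp (Tz (k - 1) y).2)) = true := by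
      have := wedgez_mem h (k - 1)
      rw [wedgez_eq_opp h, sub_add_cancel] at this
      exact this
    have h2 := (oth_spec' h.1 hk).2.2
    have h3 : opp (Tz (k - 1) y).2 ≠ (Tz k y).2 := by
      intro hc
      have h4 : wedgez y (k - 1) = wedgez y k := by
        rw [wedgez_eq_opp h, sub_add_cancel, hc]; rfl
      have := wedgez_injective h h4
      omega
    have h5 := h2 d hd h1
    have h6 := h2 _ hk' h3
    rw [wedgez_eq_opp h, sub_add_cancel, h6, ← h5]

/-- the wall is connected -/
def CW (y : YY) : Prop := ∀ v, OnW (wl y.1) v → Cn (wl y.1) 0 v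

theorem exists_posz {y : YY} (h : GY y) {v : Vx} (hv : Cn (wl y.1) 0 v) : ∃ k, v = posz y k := by
  obtain ⟨X, hX, hp⟩ := hv
  obtain ⟨n, hn | hn⟩ := path_unique h hX hp
  · exact ⟨n, by rw [posz_natCast]; exact hn.2⟩
  · exact ⟨-n, by rw [posz_neg_natCast]; exact hn.2⟩

theorem exists_wedgez {y : YY} (h : GY y) (hc : CW y) {e : Ed} (he : wl y.1 e = true) :
    ∃ k, e = wedgez y k := by
  obtain ⟨v, d, rfl⟩ := exists_edg e
  obtain ⟨k, rfl⟩ := exists_posz h (hc v ⟨d, he⟩)
  rcases eq_wedgez_of_posz h he with h1 | h1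
  · exact ⟨k, h1⟩
  · exact ⟨k - 1, h1⟩

theorem wl_iff {y : YY} (h : GY y) (hc : CW y) (e : Ed) :
    wl y.1 e = true ↔ ∃ k, e = wedgez y k :=
  ⟨exists_wedgez h hc, by rintro ⟨k, rfl⟩; exact wedgez_mem h k⟩

/-- with two classes the wall is connected -/
theorem conn_of_two {J : Ed → ℝ} (hJ : Nice 2 J) {U U' : Ed → Bool} (hU : U ∈ GJ J)
    (hU' : U' ∈ GJ J) (hne : U ≠ U') (h : ∀ A : Ed → Bool, Sat (bx U U') A → bx U A ∈ GJ J)
    {v v' : Vx} (hv : OnW (bx U U') v) (hv' : OnW (bx U U') v') : Cn (bx U U') v v' := by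
  have htwo : ∀ V ∈ GJ J, V = U ∨ V = U' := by
    intro V hV
    by_contra hcon
    push Not at hcon
    have hsub : ({V, U, U'} : Set (Ed → Bool)) ⊆ GJ J := by
      intro A hA
      rcases hA with rfl | rfl | rfl
      · exact hV
      · exact hU
      · exact hU'
    have h1 := Set.ncard_le_ncard hsub hJ.fin
    rw [hJ.card, Set.ncard_eq_three.2 ⟨V, U, U', hcon.1, hcon.2, hne, rfl⟩] at h1
    omega
  obtain ⟨d, hd⟩ := hv
  obtain ⟨d', hd'⟩ := hv'
  set A := E2.comp (bx U U') (fun u => Cn (bx U U') v u) with hA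
  have hsat : Sat (bx U U') A := E2.sat_comp fun u u' h1 h2 => h1.trans h2
  have h1 : A (edg v d) = true := E2.comp_true.2 ⟨hd, E2.cn_da hd⟩
  rcases htwo _ (h A hsat) with h2 | h2
  · exfalso
    have h3 : A = fun _ => false := by
      have := congrArg (bx U) h2
      rw [bx_cancel', bx_self] at this
      exact this
    rw [h3] at h1
    exact absurd h1 (by simp)
  · have h3 : A = bx U U' := by
      have := congrArg (bx U) h2
      rw [bx_cancel'] at this
      exact this
    have h4 : A (edg v' d') = true := by rw [h3]; exact hd'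
    exact (E2.comp_true.1 h4).2.trans (E2.cn_da hd').symm

theorem ae_CW {μ : Measure ℝ} [IsProbabilityMeasure μ]
    {Q : Measure XX} (hQ : IsQ μ 2 Q) : ∀ᵐ y ∂(nuM Q), CW y := by
  filter_upwards [nu_ae_of hQ.nice, nu_ae_of (Pool.Agent.Helper59.TJ.recomb_q hQ), nu_ae_GY hQ] with y h1 h2 h3
  intro v hv
  exact conn_of_two h1.1 h1.2.1 h1.2.2.1 h1.2.2.2 h2 ⟨y.2, h3.2.1⟩ hv

theorem OnW_sh {u : Vx} {W : Ed → Bool} {v : Vx} : OnW (sh u W) v ↔ OnW W (v + u) := by
  unfold OnW; simp only [sh_edg]

theorem Cn_sh {u : Vx} {W : Ed → Bool} {v v' : Vx} (h : Cn W (v + u) (v' + u)) :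
    Cn (sh u W) v v' := by
  obtain ⟨X, hX, hp⟩ := h
  refine ⟨shF u X, fun e he => ?_, ?_⟩
  · rw [mem_shF] at he
    exact hX _ he
  · rw [ind_shF]
    funext z
    rw [par_sh, hp]
    simp [vx, dl]

theorem CW_Tz {y : YY} (h : GY y) (hc : CW y) (k : ℤ) : CW (Tz k y) := by
  intro v hv
  rw [Tz_fst h, wl_shX, OnW_sh] at hv
  rw [Tz_fst h, wl_shX]
  apply Cn_sh
  rw [zero_add]
  refine Cn.trans ?_ (hc _ hv)
  refine (hc _ ⟨(Tz k y).2, ?_⟩).symm
  exact wedgez_mem h k

/-! ### half walls -/

open Classical in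
/-- the half wall which starts at the origin -/
noncomputable def hp (y : YY) : Ed → Bool := fun e => decide (∃ n : ℕ, e = wedge y n)

theorem hp_true {y : YY} {e : Ed} : hp y e = true ↔ ∃ n : ℕ, e = wedge y n := by
  unfold hp; simp

theorem hp_wedgez {y : YY} (h : GY y) (k : ℤ) : hp y (wedgez y k) = decide (0 ≤ k) := by
  rw [Bool.eq_iff_iff, hp_true, decide_eq_true_iff]
  constructor
  · rintro ⟨n, hn⟩
    rw [← wedgez_natCast h] at hn
    have := wedgez_injective h hn
    omega
  · intro hk
    obtain ⟨n, rfl⟩ := Int.eq_ofNat_of_zero_le hk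
    exact ⟨n, wedgez_natCast h n⟩

theorem hp_rv_wedgez {y : YY} (h : GY y) (k : ℤ) : hp (rv y) (wedgez y k) = decide (k < 0) := by
  rw [Bool.eq_iff_iff, hp_true, decide_eq_true_iff]
  constructor
  · rintro ⟨n, hn⟩
    rw [wedge_rv h] at hn
    have := wedgez_injective h hn
    omega
  · intro hk
    refine ⟨(-k - 1).toNat, ?_⟩
    rw [wedge_rv h]
    congr 1
    omega

theorem hp_sub {y : YY} (h : GY y) {e : Ed} (he : hp y e = true) : wl y.1 e = true := by
  obtain ⟨n, rfl⟩ := hp_true.1 he
  exact wedge_mem h n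

theorem hp_of_not {y : YY} (h : GY y) {e : Ed} (he : wl y.1 e = false) : hp y e = false := by
  cases h1 : hp y e with
  | false => rfl
  | true => rw [hp_sub h h1] at he; exact absurd he (by simp)

theorem bx_hp {y : YY} (h : GY y) (hc : CW y) : bx (hp y) (hp (rv y)) = wl y.1 := by
  funext e
  unfold bx
  cases he : wl y.1 e with
  | false =>
    rw [hp_of_not h he, hp_of_not h.rv (by exact he)]
    rfl
  | true =>
    obtain ⟨k, rfl⟩ := exists_wedgez h hc he
    rw [hp_wedgez h, hp_rv_wedgez h]
    by_cases hk : 0 ≤ k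
    · have : ¬ k < 0 := by omega
      simp [hk, this]
    · have : k < 0 := by omega
      simp [hk, this]

theorem hp_and_rv {y : YY} (h : GY y) (e : Ed) : ¬ (hp y e = true ∧ hp (rv y) e = true) := by
  rintro ⟨h1, h2⟩
  obtain ⟨n, rfl⟩ := hp_true.1 h1
  rw [← wedgez_natCast h, hp_rv_wedgez h, decide_eq_true_iff] at h2
  omega

/-- a vertex off the walk sees no edge of the half wall -/
theorem hp_edg_off {y : YY} (h : GY y) {v : Vx} (hv : ∀ k, v ≠ posz y k) (d : Dir) :
    hp y (edg v d) = false := by
  cases h1 : hp y (edg v d) with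
  | false => rfl
  | true =>
    exfalso
    obtain ⟨n, hn⟩ := hp_true.1 h1
    rw [← wedgez_natCast h] at hn
    have hn' : edg v d = edg (posz y n) (Tz n y).2 := hn
    rcases edg_eq_two hn' with ⟨h2, _⟩ | ⟨h2, h3⟩
    · exact hv _ h2
    · refine hv (n + 1) ?_
      rw [posz_step h, h2, h3, stp_opp]
      abel

theorem par_eq_sum4 (f : Dir → Bool) (a b : Dir) (hab : a ≠ b) (h : ∀ d, d ≠ a → d ≠ b → f d = false) :
    xor (xor (f 0) (f 1)) (xor (f 2) (f 3)) = xor (f a) (f b) := by
  revert f a b
  decide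

theorem par_hp {y : YY} (h : GY y) : par (hp y) = dl 0 := by
  funext v
  by_cases hv : ∃ k, v = posz y k
  · obtain ⟨k, rfl⟩ := hv
    have hk : wl y.1 (edg (posz y k) (Tz k y).2) = true := wedgez_mem h k
    have hk' : edg (posz y k) (opp (Tz (k - 1) y).2) = wedgez y (k - 1) := by
      rw [wedgez_eq_opp h, sub_add_cancel]
    have h3 : (Tz k y).2 ≠ opp (Tz (k - 1) y).2 := by
      intro hc
      have h4 : wedgez y (k - 1) = wedgez y k := by
        rw [wedgez_eq_opp h, sub_add_cancel, ← hc]; rfl
      have := wedgez_injective h h4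
      omega
    have h5 := par_eq_sum4 (fun d => hp y (edg (posz y k) d)) (Tz k y).2 (opp (Tz (k - 1) y).2) h3
      (fun d hd hd' => by
        apply hp_of_not h
        cases hw : wl y.1 (edg (posz y k) d) with
        | false => rfl
        | true =>
          exfalso
          rcases eq_wedgez_of_posz h hw with h6 | h6
          · rcases edg_eq_two (h6.trans rfl : edg (posz y k) d = edg (posz y k) (Tz k y).2) with h7 | h7
            · exact hd h7.2
            · have : stp d = 0 := by
                have := h7.1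
                exact (left_eq_add.1 this)
              revert this
              fin_cases d <;> simp [stp]
          · rw [← hk'] at h6
            rcases edg_eq_two h6 with h7 | h7
            · exact hd' h7.2
            · have : stp d = 0 := by
                have := h7.1
                exact (left_eq_add.1 this)
              revert this
              fin_cases d <;> simp [stp])
    have h6 : par (hp y) (posz y k) = xor (hp y (wedgez y k)) (hp y (wedgez y (k - 1))) := by
      rw [← hk']
      exact h5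
    rw [h6, hp_wedgez h, hp_wedgez h]
    unfold dl
    have h7 : posz y k = 0 ↔ k = 0 := by
      constructor
      · intro hc
        exact posz_injective h (by rw [hc, posz_zero])
      · rintro rfl
        exact posz_zero y
    rcases lt_trichotomy k 0 with hk0 | hk0 | hk0
    · have e1 : ¬ (0 ≤ k) := by omega
      have e2 : ¬ (0 ≤ k - 1) := by omega
      have e3 : ¬ (posz y k = 0) := fun hc => by have := h7.1 hc; omega
      simp only [e1, e2, e3, decide_false, Bool.xor_false]
    · subst hk0
      simp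
    · have e1 : (0 ≤ k) := by omega
      have e2 : (0 ≤ k - 1) := by omega
      have e3 : ¬ (posz y k = 0) := fun hc => by have := h7.1 hc; omega
      simp only [e1, e2, e3, decide_false, decide_true, Bool.xor_self]
  · push Not at hv
    have h1 := hp_edg_off h hv
    have h2 : v ≠ 0 := by have := hv 0; rwa [posz_zero] at this
    unfold par dl
    rw [h1, h1, h1, h1]
    simp [h2]

/-- the half wall after `k` steps -/
theorem hp_Tz {y : YY} (h : GY y) (k l : ℤ) :
    hp (Tz k y) ((wedgez y l).1 - posz y k, (wedgez y l).2) = decide (k ≤ l) := by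
  have h1 : ((wedgez y l).1 - posz y k, (wedgez y l).2) = wedgez (Tz k y) (l - k) := by
    unfold wedgez
    rw [← Tz_add, sub_add_cancel, posz_Tz h, add_sub_cancel]
    have h2 := edg_add (posz y k) (posz y l - posz y k) (Tz l y).2
    rw [sub_add_cancel] at h2
    rw [h2]
    simp
  rw [h1, hp_wedgez (GY_Tz h)]
  congr 1
  rw [eq_iff_iff]
  constructor <;> intro _ <;> omega

end Pool.Agent.Helper60.TJ
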