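import Pool.Agent.Helper60.TJ.F2
import Pool.Agent.Helper60.TJ.B

set_option autoImplicit false

/-! All T-joins survive a small change of one coupling. -/

namespace Pool.Agent.Helper60.TJ

open scoped symmDiff

namespace Flex

/-- the cost of a cycle through a given edge is bounded below -/
theorem exists_gap {w : Ed → ℝ} {T : Vx → Bool} (hIB : IB w T) {U : Ed → Bool}
    (hU : U ∈ GS w T) (e : Ed) :
    ∃ δ : ℝ, 0 < δ ∧ ∀ C : Finset Ed, IsCyc C → e ∈ C → δ ≤ en w U C := by
  classical
  by_contra hcon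
  push Not at hcon
  have h0 : ∀ n : ℕ, ∃ C : Finset Ed, IsCyc C ∧ e ∈ C ∧ en w U C < 1 / ((n : ℝ) + 1) :=
    fun n => hcon _ (by positivity)
  choose X hX hXe hXn using h0
  let 𝒰 : Ultrafilter ℕ := Filter.hyperfilter ℕ
  set V : Ed → Bool := fun e => decide (∀ᶠ n in (𝒰 : Filter ℕ), bx U (ind (X n)) e = true) with hV
  have h1 : ∀ e, ∀ᶠ n in (𝒰 : Filter ℕ), bx U (ind (X n)) e = V e := by
    intro e
    by_cases h : ∀ᶠ n in (𝒰 : Filter ℕ), bx U (ind (X n)) e = true
    · simp only [hV, h, decide_true]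
    · have h' := (Ultrafilter.eventually_not (f := 𝒰)).2 h
      simp only [hV, h, decide_false]
      filter_upwards [h'] with n hn
      simpa using hn
  have h2 : ∀ F : Finset Ed, ∀ᶠ n in (𝒰 : Filter ℕ), ∀ e ∈ F, bx U (ind (X n)) e = V e := by
    intro F
    rw [Filter.eventually_all_finset]
    intro e _
    exact h1 e
  have hlarge : ∀ m : ℕ, ∀ᶠ n in (𝒰 : Filter ℕ), m ≤ n := fun m =>
    (Filter.hyperfilter_le_cofinite.trans (le_of_eq Nat.cofinite_eq_atTop)) (Filter.eventually_ge_atTop m)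
  have hsmall : ∀ δ : ℝ, 0 < δ → ∀ᶠ n in (𝒰 : Filter ℕ), en w U (X n) < δ := by
    intro δ hδ
    obtain ⟨m, hm⟩ := exists_nat_one_div_lt hδ
    filter_upwards [hlarge m] with n hn
    refine (hXn n).trans (lt_of_le_of_lt ?_ hm)
    apply one_div_le_one_div_of_le (by positivity)
    have : (m : ℝ) ≤ n := by exact_mod_cast hn
    linarith
  have hVG : V ∈ GS w T := by
    constructor
    · intro v
      obtain ⟨n, hn⟩ := (h2 (Finset.univ.image (edg v))).exists
      have h3 : par V v = par (bx U (ind (X n))) v := by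
        unfold par
        rw [hn (edg v 0) (by simp), hn (edg v 1) (by simp), hn (edg v 2) (by simp),
          hn (edg v 3) (by simp)]
      rw [h3, par_bx, hU.1 v, hX n v]
      cases T v <;> rfl
    · intro C hC
      refine le_of_forall_pos_le_add fun δ hδ => ?_
      obtain ⟨n, hn, hn'⟩ := ((h2 C).and (hsmall δ hδ)).exists
      rw [B.en_eq w U V (X n) C hn]
      have := hU.2 (X n ∆ C) ((hX n).symmDiff hC)
      linarith
  have hne : U ≠ V := by
    intro h
    obtain ⟨n, hn⟩ := (h1 e).exists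
    have h3 : bx U (ind (X n)) e = !(U e) := by
      unfold bx
      rw [ind_eq_true.2 (hXe n)]
      cases U e <;> rfl
    rw [h3, ← h] at hn
    cases h4 : U e <;> simp [h4] at hn
  refine hIB U hU V hVG hne 1 fun F => ?_
  obtain ⟨n, hn, hn'⟩ := ((h2 F).and (hsmall 1 one_pos)).exists
  exact ⟨X n, hX n, hn, hn'.le⟩

theorem en_upd {J : Ed → ℝ} {e : Ed} {x : ℝ} (U : Ed → Bool) {C : Finset Ed} (he : e ∉ C) :
    en (wt (upd J e x)) U C = en (wt J) U C := by
  unfold en wt upd
  refine Finset.sum_congr rfl fun f hf => ?_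
  have : f ≠ e := fun h => he (h ▸ hf)
  rw [Function.update_of_ne this]

theorem en_upd_mem {J : Ed → ℝ} {e : Ed} {x : ℝ} (U : Ed → Bool) {C : Finset Ed} (he : e ∈ C) :
    en (wt J) U C - |x - J e| ≤ en (wt (upd J e x)) U C := by
  have h1 : ∀ w : Ed → ℝ, en w U C = w e * sg (U e) + en w U (C.erase e) := by
    intro w
    unfold en
    exact (Finset.add_sum_erase C (fun e => w e * sg (U e)) he).symm
  rw [h1 (wt (upd J e x)), h1 (wt J), en_upd U (Finset.notMem_erase e C)]
  have h2 : wt (upd J e x) e = |x| := by unfold wt upd; rw [Function.update_self]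
  rw [h2]
  have h3 : |(|x| - |J e|) * sg (U e)| ≤ |x - J e| := by
    rw [abs_mul, abs_sg, mul_one]
    exact abs_abs_sub_abs_le x (J e)
  have h4 := neg_le_of_abs_le h3
  have h5 : wt J e = |J e| := rfl
  rw [h5]
  linarith [h4]

end Flex

/-- both T-joins survive a small change of one coupling -/
theorem flex' {J : Ed → ℝ} {k : ℕ} (hJ : Nice k J) (e : Ed) :
    ∃ δ : ℝ, 0 < δ ∧ ∀ x : ℝ, |x - J e| < δ → ∀ U ∈ GJ J, U ∈ GJ (upd J e x) := by
  classical
  have h1 : ∀ U : Ed → Bool, ∃ δ : ℝ, 0 < δ ∧ (U ∈ GJ J → ∀ C : Finset Ed, IsCyc C → e ∈ C →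
      δ ≤ en (wt J) U C) := by
    intro U
    by_cases hU : U ∈ GJ J
    · obtain ⟨δ, hδ, h⟩ := Flex.exists_gap hJ.ib hU e
      exact ⟨δ, hδ, fun _ => h⟩
    · exact ⟨1, one_pos, fun h => absurd h hU⟩
  choose δ hδ hδC using h1
  set S := hJ.fin.toFinset with hS
  have hJe : 0 < |J e| := abs_pos.2 (hJ.nz e)
  obtain ⟨d, hd0, hd⟩ : ∃ d : ℝ, 0 < d ∧ ∀ U ∈ S, d ≤ δ U := by
    rcases S.eq_empty_or_nonempty with h | h
    · exact ⟨1, one_pos, by simp [h]⟩
    · obtain ⟨U0, hU0, hmin⟩ := S.exists_min_image δ h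
      exact ⟨δ U0, hδ U0, hmin⟩
  refine ⟨min d |J e|, lt_min hd0 hJe, fun x hx U hU => ?_⟩
  have hx1 : |x - J e| < d := hx.trans_le (min_le_left _ _)
  have hx2 : |x - J e| < |J e| := hx.trans_le (min_le_right _ _)
  have hng : ng (upd J e x) = ng J := by
    funext f
    unfold ng upd
    by_cases hf : f = e
    · subst hf
      rw [Function.update_self]
      rw [decide_eq_decide]
      rcases lt_or_gt_of_ne (hJ.nz f) with h | h
      · rw [abs_of_neg h] at hx2
        have := (abs_lt.1 hx2).2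
        constructor
        · intro _; exact h
        · intro _; linarith
      · rw [abs_of_pos h] at hx2
        have := (abs_lt.1 hx2).1
        constructor
        · intro h'; linarith
        · intro h'; linarith
    · rw [Function.update_of_ne hf]
  constructor
  · intro v
    have : fr (upd J e x) = fr J := by unfold fr; rw [hng]
    rw [this]
    exact hU.1 v
  · intro C hC
    by_cases he : e ∈ C
    · have h2 := Flex.en_upd_mem (J := J) (x := x) U he
      have h3 := hδC U hU C hC he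
      have h4 := hd U (hJ.fin.mem_toFinset.2 hU)
      linarith
    · rw [Flex.en_upd U he]
      exact hU.2 C hC

end Pool.Agent.Helper60.TJ
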