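import Pool.Agent.Helper83.S5.Defs
import Pool.Agent.Helper66.TJ.Q

set_option autoImplicit false

/-! The standing assumptions of section 5 hold for the counting measure. -/

namespace Pool.Agent.Helper83.S5

open MeasureTheory
open Pool.Agent.Helper60.TJ

theorem ctt_eq_ct (D : Set XX) (J : Ed → ℝ) : ctt D J = ct D J := by
  unfold ctt ct
  congr 2
  ext q
  constructor
  · rintro ⟨h1, h2, h3, h4⟩
    exact ⟨⟨h1, h2, h3⟩, h4⟩
  · rintro ⟨⟨h1, h2, h3⟩, h4⟩
    exact ⟨h1, h2, h3, h4⟩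

theorem exists_H5 {μ : Measure ℝ} [IsProbabilityMeasure μ] (hsym : μ.map (fun x => -x) = μ)
    (hatl : ∀ x : ℝ, μ {x} = 0)
    (hN : ∀ᵐ J ∂(PP μ), Nice 2 J) : ∃ Q : Measure XX, H5 μ Q := by
  obtain ⟨s, h1, h2⟩ := exists_selectors 2
  have hs : Sel s := ⟨h1, h2⟩
  refine ⟨QM μ s, hsym, hatl, hN, isQ_QM hs hN, fun D hD => ?_, fun D hD => ?_⟩
  · rw [QM_apply hs hN hD]
    exact lintegral_congr fun J => (ctt_eq_ct D J).symm
  · have h3 : ctt D = ct D := funext fun J => ctt_eq_ct D J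
    rw [h3]
    exact aemeasurable_ct hs hN hD

end Pool.Agent.Helper83.S5
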