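import Pool.Agent.Helper66.TJ.Refl

set_option autoImplicit false

/-! Asymptotic locality of the reflection. -/

namespace Pool.Agent.Helper60.TJ

open MeasureTheory Filter Topology
open scoped symmDiff

/-! ### local sets -/

/-- a set which depends on the direction and on finitely many coordinates -/
def LocOn (F : Finset Ed) (B : Set YY) : Prop :=
  ∀ z z' : YY, z.2 = z'.2 → (∀ e ∈ F, z.1.1 e = z'.1.1 e ∧ z.1.2.1 e = z'.1.2.1 e ∧
    z.1.2.2 e = z'.1.2.2 e) → (z ∈ B ↔ z' ∈ B)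

theorem LocOn.mono {F F' : Finset Ed} {B : Set YY} (h : LocOn F B) (hF : F ⊆ F') : LocOn F' B :=
  fun z z' h1 h2 => h z z' h1 fun e he => h2 e (hF he)

/-- the algebra of the measurable local sets -/
def LocSets : Set (Set YY) := {B | MeasurableSet B ∧ ∃ F, LocOn F B}

theorem isSetAlgebra_LocSets : IsSetAlgebra LocSets := by
  refine ⟨⟨MeasurableSet.empty, ∅, fun _ _ _ _ => Iff.rfl⟩, ?_, ?_⟩
  · rintro B ⟨h1, F, h2⟩
    exact ⟨h1.compl, F, fun z z' h3 h4 => not_congr (h2 z z' h3 h4)⟩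
  · rintro B B' ⟨h1, F, h2⟩ ⟨h1', F', h2'⟩
    classical
    refine ⟨h1.union h1', F ∪ F', fun z z' h3 h4 => ?_⟩
    have e1 := h2.mono (Finset.subset_union_left (s₂ := F')) z z' h3 h4
    have e2 := h2'.mono (Finset.subset_union_right (s₁ := F)) z z' h3 h4
    exact or_congr e1 e2

theorem generateFrom_LocSets :
    (inferInstance : MeasurableSpace YY) = MeasurableSpace.generateFrom LocSets := by
  apply le_antisymm
  · have hJ : ∀ e, @Measurable YY ℝ (MeasurableSpace.generateFrom LocSets) _ (fun z => z.1.1 e) := by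
      intro e
      intro t ht
      apply MeasurableSpace.measurableSet_generateFrom
      refine ⟨((measurable_pi_apply e).comp (measurable_fst.comp measurable_fst) :
        Measurable fun z : YY => z.1.1 e) ht, {e}, fun z z' _ h => ?_⟩
      have := (h e (Finset.mem_singleton_self e)).1
      simp only [Set.mem_preimage, this]
    have hU : ∀ e, @Measurable YY Bool (MeasurableSpace.generateFrom LocSets) _
        (fun z => z.1.2.1 e) := by
      intro e
      intro t ht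
      apply MeasurableSpace.measurableSet_generateFrom
      refine ⟨((measurable_coord e).comp (measurable_fst.comp (measurable_snd.comp measurable_fst)) :
        Measurable fun z : YY => z.1.2.1 e) ht, {e}, fun z z' _ h => ?_⟩
      have := (h e (Finset.mem_singleton_self e)).2.1
      simp only [Set.mem_preimage, this]
    have hU' : ∀ e, @Measurable YY Bool (MeasurableSpace.generateFrom LocSets) _
        (fun z => z.1.2.2 e) := by
      intro e
      intro t ht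
      apply MeasurableSpace.measurableSet_generateFrom
      refine ⟨((measurable_coord e).comp (measurable_snd.comp (measurable_snd.comp measurable_fst)) :
        Measurable fun z : YY => z.1.2.2 e) ht, {e}, fun z z' _ h => ?_⟩
      have := (h e (Finset.mem_singleton_self e)).2.2
      simp only [Set.mem_preimage, this]
    have hd : @Measurable YY Dir (MeasurableSpace.generateFrom LocSets) _ (fun z => z.2) := by
      intro t ht
      apply MeasurableSpace.measurableSet_generateFrom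
      refine ⟨measurable_snd ht, ∅, fun z z' h _ => ?_⟩
      simp only [Set.mem_preimage, h]
    have h1 : @Measurable YY (Ed → ℝ) (MeasurableSpace.generateFrom LocSets) _ (fun z => z.1.1) :=
      @measurable_pi_lambda _ _ _ (MeasurableSpace.generateFrom LocSets) _ _ hJ
    have h2 : @Measurable YY (Ed → Bool) (MeasurableSpace.generateFrom LocSets) _
        (fun z => z.1.2.1) :=
      @measurable_pi_lambda _ _ _ (MeasurableSpace.generateFrom LocSets) _ _ hU
    have h3 : @Measurable YY (Ed → Bool) (MeasurableSpace.generateFrom LocSets) _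
        (fun z => z.1.2.2) :=
      @measurable_pi_lambda _ _ _ (MeasurableSpace.generateFrom LocSets) _ _ hU'
    have h4 : @Measurable YY YY (MeasurableSpace.generateFrom LocSets) _ (fun z => z) := by
      have h5 := h2.prodMk h3
      have h6 := h1.prodMk h5
      exact h6.prodMk hd
    intro t ht
    exact h4 ht
  · exact MeasurableSpace.generateFrom_le fun t ht => ht.1

theorem exists_local (ν : Measure YY) [IsFiniteMeasure ν] {A : Set YY} (hA : MeasurableSet A)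
    {ε : ℝ} (hε : 0 < ε) :
    ∃ B, MeasurableSet B ∧ (∃ F, LocOn F B) ∧ ν (A ∆ B) < ENNReal.ofReal ε := by
  have hdense : ν.MeasureDense LocSets := by
    apply Measure.MeasureDense.of_generateFrom_isSetAlgebra_finite
    · exact isSetAlgebra_LocSets
    · exact generateFrom_LocSets
  obtain ⟨B, hB, hAB⟩ := hdense.approx A hA (measure_ne_top _ _) ε hε
  exact ⟨B, hB.1, hB.2, hAB⟩

/-! ### symmetries of the admissible set -/

/-- forget the signs of the couplings -/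
noncomputable def pw (y : YY) : YY := ((wt y.1.1, y.1.2.1, y.1.2.2), y.2)

/-- exchange the two T-joins -/
def sw (y : YY) : YY := ((y.1.1, y.1.2.2, y.1.2.1), y.2)

theorem measurable_pw : Measurable pw :=
  ((measurable_wt.comp (measurable_fst.comp measurable_fst)).prodMk
    (measurable_snd.comp measurable_fst)).prodMk measurable_snd

theorem measurable_sw : Measurable sw :=
  ((measurable_fst.comp measurable_fst).prodMk
    ((measurable_snd.comp (measurable_snd.comp measurable_fst)).prodMk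
      (measurable_fst.comp (measurable_snd.comp measurable_fst)))).prodMk measurable_snd

theorem wl_sw (y : YY) : wl (sw y).1 = wl y.1 := bx_comm _ _

theorem wt_wt (J : Ed → ℝ) : wt (wt J) = wt J := by
  funext e; unfold wt; rw [abs_abs]

theorem pw_mem_AA (y : YY) : pw y ∈ AA ↔ y ∈ AA := by
  have h1 : hp (pw y) = hp y := hp_congr rfl rfl
  have h2 : wt (pw y).1.1 = wt y.1.1 := wt_wt _
  have h3 : Zj (pw y) = Zj y := by unfold Zj; rw [h1]; rfl
  have h4 : Zk (pw y) = Zk y := by unfold Zk; rw [h1]; rfl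
  show (GY (pw y) ∧ Adm (pw y)) ↔ (GY y ∧ Adm y)
  unfold Adm
  rw [h2, h3, h4]
  exact and_congr_left fun _ => GY_congr rfl rfl

theorem sw_mem_AA (y : YY) : sw y ∈ AA ↔ y ∈ AA := by
  have h1 : hp (sw y) = hp y := hp_congr (wl_sw y) rfl
  have h3 : Zj (sw y) = Zk y := by unfold Zj Zk; rw [h1]; rfl
  have h4 : Zk (sw y) = Zj y := by unfold Zj Zk; rw [h1]; rfl
  show (GY (sw y) ∧ Adm (sw y)) ↔ (GY y ∧ Adm y)
  unfold Adm
  rw [h3, h4]
  have h5 : wt (sw y).1.1 = wt y.1.1 := rfl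
  rw [h5]
  exact and_congr (GY_congr (wl_sw y) rfl) and_comm

theorem ct_sw (J : Ed → ℝ) (d : Dir) (B : Set YY) :
    ct {p | wl p (edg 0 d) = true ∧ (p, d) ∈ sw ⁻¹' B} J =
      ct {p | wl p (edg 0 d) = true ∧ (p, d) ∈ B} J := by
  unfold ct
  congr 1
  refine Set.ncard_congr (fun q _ => (q.2, q.1)) ?_ ?_ ?_
  · rintro ⟨U, U'⟩ ⟨⟨hU, hU', hne⟩, hw, hB⟩
    refine ⟨⟨hU', hU, hne.symm⟩, ?_, hB⟩
    show bx U' U (edg 0 d) = true
    rw [bx_comm]
    exact hw
  · rintro ⟨U, U'⟩ ⟨V, V'⟩ _ _ h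
    exact Prod.ext (congrArg Prod.snd h) (congrArg Prod.fst h)
  · rintro ⟨U, U'⟩ ⟨⟨hU, hU', hne⟩, hw, hB⟩
    refine ⟨(U', U), ⟨⟨hU', hU, hne.symm⟩, ?_, hB⟩, rfl⟩
    show bx U' U (edg 0 d) = true
    rw [bx_comm]
    exact hw

theorem mp_sw {μ : Measure ℝ} [IsProbabilityMeasure μ] {k : ℕ}
    {s : Fin k → (Ed → ℝ) → (Ed → Bool)} (hs : Sel s) (hN : ∀ᵐ J ∂(PP μ), Nice k J) :
    MeasurePreserving sw (nuM (QM μ s)) (nuM (QM μ s)) := by
  refine ⟨measurable_sw, ?_⟩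
  have hm : ∀ (d : Dir) {B : Set YY}, MeasurableSet B →
      MeasurableSet {p : XX | wl p (edg 0 d) = true ∧ (p, d) ∈ B} := by
    intro d B hB
    exact (measurableSet_eq_fun ((measurable_coord (edg 0 d)).comp measurable_wl)
      measurable_const).inter ((measurable_id.prodMk measurable_const :
        Measurable fun p : XX => (p, d)) hB)
  ext B hB
  rw [Measure.map_apply measurable_sw hB, nu_eq _ (measurable_sw hB), nu_eq _ hB]
  refine Finset.sum_congr rfl fun d _ => ?_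
  rw [QM_apply hs hN (hm d (measurable_sw hB)), QM_apply hs hN (hm d hB)]
  exact lintegral_congr fun J => ct_sw J d B

/-! ### far edges -/

theorem wedgez_Tz {y : YY} (h : GY y) (k l : ℤ) :
    wedgez (Tz k y) l = ((wedgez y (k + l)).1 - posz y k, (wedgez y (k + l)).2) := by
  unfold wedgez
  rw [← Tz_add, add_comm l k, posz_Tz h]
  have h2 := edg_add (posz y k) (posz y (k + l) - posz y k) (Tz (k + l) y).2
  rw [sub_add_cancel] at h2
  rw [h2]
  simp

theorem measurable_posz (k : ℤ) : Measurable fun y : YY => posz y k := by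
  rcases Int.eq_nat_or_neg k with ⟨n, rfl | rfl⟩
  · have : (fun y : YY => posz y (n : ℤ)) = fun y => pos y n := by
      funext y; exact posz_natCast y n
    rw [this]; exact measurable_pos n
  · have : (fun y : YY => posz y (-(n : ℤ))) = fun y => pos (rv y) n := by
      funext y; exact posz_neg_natCast y n
    rw [this]; exact (measurable_pos n).comp measurable_rv

theorem measurable_wedgez (k : ℤ) : Measurable fun y : YY => wedgez y k := by
  have h1 : Measurable fun y : YY => (posz y k, (Tz k y).2) :=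
    (measurable_posz k).prodMk (measurable_snd.comp (measurable_Tz k))
  have h2 : Measurable fun q : Vx × Dir => edg q.1 q.2 := measurable_of_countable _
  exact h2.comp h1

/-- some wall edge in the window `F` has a far index -/
def Far (F : Finset Ed) (k : ℕ) : Set YY := {y | ∃ j : ℤ, (k : ℤ) ≤ |j| ∧ wedgez y j ∈ F}

theorem measurableSet_Far (F : Finset Ed) (k : ℕ) : MeasurableSet (Far F k) := by
  have : Far F k = ⋃ j : ℤ, ({_y : YY | (k : ℤ) ≤ |j|} ∩ {y | wedgez y j ∈ F}) := by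
    ext y; simp [Far]
  rw [this]
  refine MeasurableSet.iUnion fun j => (MeasurableSet.const _).inter ?_
  exact (measurable_wedgez j) (Set.to_countable (F : Set Ed)).measurableSet

theorem tendsto_Far {μ : Measure ℝ} [IsProbabilityMeasure μ] {k : ℕ} {Q : Measure XX}
    (hQ : IsQ μ k Q) (F : Finset Ed) : Tendsto (fun n => nuM Q (Far F n)) atTop (𝓝 0) := by
  have hfin : IsFiniteMeasure (nuM Q) := ⟨nu_univ_lt hQ⟩
  have hanti : Antitone fun n => Far F n := by
    rintro n m hnm y ⟨j, hj, hjF⟩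
    have : (n : ℤ) ≤ m := by exact_mod_cast hnm
    exact ⟨j, this.trans hj, hjF⟩
  have h1 := tendsto_measure_iInter_atTop (μ := nuM Q) (s := fun n => Far F n)
    (fun n => (measurableSet_Far F n).nullMeasurableSet) hanti ⟨0, measure_ne_top _ _⟩
  have h2 : nuM Q (⋂ n, Far F n) = 0 := by
    refine measure_mono_null (t := {y | ¬ GY y}) ?_ (nu_ae_GY hQ)
    intro y hy hGY
    have hinj := wedgez_injective hGY
    have hfinite : {j : ℤ | wedgez y j ∈ F}.Finite := by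
      refine Set.Finite.of_finite_image (f := wedgez y) ?_ hinj.injOn
      refine (F.finite_toSet).subset ?_
      rintro e ⟨j, hj, rfl⟩
      exact hj
    obtain ⟨M, hM⟩ := (hfinite.image fun j => |j|).bddAbove
    have h3 := Set.mem_iInter.1 hy (M.toNat + 1)
    obtain ⟨j, hj, hjF⟩ := h3
    have h4 := hM ⟨j, hjF, rfl⟩
    simp only at h4
    push_cast at hj
    omega
  rw [h2] at h1
  exact h1

/-! ### locality -/

theorem local_pos {F : Finset Ed} {B : Set YY} (hB : LocOn F B) {y : YY} (hy : GY y) (hc : CW y)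
    {k : ℕ} (hk : Tz k y ∉ Far F k) :
    (pw (Tz k (Rf0 y)) ∈ B ↔ pw (sw (Tz k y)) ∈ B) := by
  have hy' : GY (Rf0 y) := (GY_Rf0 y).2 hy
  have e1 : (Tz k (Rf0 y)).1 = shX (posz y k) (Rf0 y).1 := by
    rw [Tz_fst hy', posz_congr (wl_Rf0 y) rfl]
  have e2 : (Tz k y).1 = shX (posz y k) y.1 := Tz_fst hy k
  have key : ∀ e ∈ F, hp y (e.1 + posz y k, e.2) = wl y.1 (e.1 + posz y k, e.2) := by
    intro e he
    cases hw : wl y.1 (e.1 + posz y k, e.2) with
    | false => exact hp_of_not hy hw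
    | true =>
      obtain ⟨l, hl⟩ := exists_wedgez hy hc hw
      rw [hl, hp_wedgez hy, decide_eq_true_iff]
      by_contra hneg
      apply hk
      refine ⟨l - k, ?_, ?_⟩
      · rw [abs_of_neg (by omega)]; omega
      · rw [wedgez_Tz hy, add_sub_cancel, ← hl]
        simpa using he
  apply hB
  · exact Tz_snd_congr (wl_Rf0 y) rfl k
  · intro e he
    have h1 := key e he
    refine ⟨?_, ?_, ?_⟩
    · show wt (Tz k (Rf0 y)).1.1 e = wt (Tz k y).1.1 e
      rw [e1, e2]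
      show wt (sh (posz y k) (flp (ray 0) y.1.1)) e = wt (sh (posz y k) y.1.1) e
      rw [wt_sh, wt_sh, wt_flp]
    · show (Tz k (Rf0 y)).1.2.1 e = (Tz k y).1.2.2 e
      rw [e1, e2]
      show xor (y.1.2.1 (e.1 + posz y k, e.2)) (hp y (e.1 + posz y k, e.2))
        = y.1.2.2 (e.1 + posz y k, e.2)
      rw [h1]
      show xor (y.1.2.1 (e.1 + posz y k, e.2)) (xor (y.1.2.1 (e.1 + posz y k, e.2))
        (y.1.2.2 (e.1 + posz y k, e.2))) = _
      cases y.1.2.1 (e.1 + posz y k, e.2) <;> cases y.1.2.2 (e.1 + posz y k, e.2) <;> rfl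
    · show (Tz k (Rf0 y)).1.2.2 e = (Tz k y).1.2.1 e
      rw [e1, e2]
      show xor (y.1.2.2 (e.1 + posz y k, e.2)) (hp y (e.1 + posz y k, e.2))
        = y.1.2.1 (e.1 + posz y k, e.2)
      rw [h1]
      show xor (y.1.2.2 (e.1 + posz y k, e.2)) (xor (y.1.2.1 (e.1 + posz y k, e.2))
        (y.1.2.2 (e.1 + posz y k, e.2))) = _
      cases y.1.2.1 (e.1 + posz y k, e.2) <;> cases y.1.2.2 (e.1 + posz y k, e.2) <;> rfl

theorem local_neg {F : Finset Ed} {B : Set YY} (hB : LocOn F B) {y : YY} (hy : GY y)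
    {k : ℕ} (hk : Tz (-(k : ℤ)) y ∉ Far F k) :
    (pw (Tz (-(k : ℤ)) (Rf0 y)) ∈ B ↔ pw (Tz (-(k : ℤ)) y) ∈ B) := by
  have hy' : GY (Rf0 y) := (GY_Rf0 y).2 hy
  have e1 : (Tz (-(k : ℤ)) (Rf0 y)).1 = shX (posz y (-(k : ℤ))) (Rf0 y).1 := by
    rw [Tz_fst hy', posz_congr (wl_Rf0 y) rfl]
  have e2 : (Tz (-(k : ℤ)) y).1 = shX (posz y (-(k : ℤ))) y.1 := Tz_fst hy _
  set u := posz y (-(k : ℤ)) with hu
  have key : ∀ e ∈ F, hp y (e.1 + u, e.2) = false := by
    intro e he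
    cases hw : hp y (e.1 + u, e.2) with
    | false => rfl
    | true =>
      exfalso
      obtain ⟨l, hl⟩ := hp_true.1 hw
      rw [← wedgez_natCast hy] at hl
      apply hk
      refine ⟨(l : ℤ) + k, ?_, ?_⟩
      · rw [abs_of_nonneg (by positivity)]; omega
      · rw [wedgez_Tz hy]
        have : (-(k : ℤ) + ((l : ℤ) + k)) = l := by ring
        rw [this, ← hl, ← hu]
        simpa using he
  apply hB
  · exact Tz_snd_congr (wl_Rf0 y) rfl _
  · intro e he
    have h1 := key e he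
    refine ⟨?_, ?_, ?_⟩
    · show wt (Tz (-(k : ℤ)) (Rf0 y)).1.1 e = wt (Tz (-(k : ℤ)) y).1.1 e
      rw [e1, e2]
      show wt (sh u (flp (ray 0) y.1.1)) e = wt (sh u y.1.1) e
      rw [wt_sh, wt_sh, wt_flp]
    · show (Tz (-(k : ℤ)) (Rf0 y)).1.2.1 e = (Tz (-(k : ℤ)) y).1.2.1 e
      rw [e1, e2]
      show xor (y.1.2.1 (e.1 + u, e.2)) (hp y (e.1 + u, e.2)) = y.1.2.1 (e.1 + u, e.2)
      rw [h1, Bool.xor_false]
    · show (Tz (-(k : ℤ)) (Rf0 y)).1.2.2 e = (Tz (-(k : ℤ)) y).1.2.2 e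
      rw [e1, e2]
      show xor (y.1.2.2 (e.1 + u, e.2)) (hp y (e.1 + u, e.2)) = y.1.2.2 (e.1 + u, e.2)
      rw [h1, Bool.xor_false]

theorem loc_pos {μ : Measure ℝ} [IsProbabilityMeasure μ] (hsym : μ.map (fun x => -x) = μ)
    {s : Fin 2 → (Ed → ℝ) → (Ed → Bool)} (hs : Sel s) (hN : ∀ᵐ J ∂(PP μ), Nice 2 J) :
    Tendsto (fun k : ℕ => nuM (QM μ s)
      {y | ¬ (Tz (k : ℤ) (Rf y) ∈ AA ↔ Tz (k : ℤ) y ∈ AA)}) atTop (𝓝 0) := by
  have hQ : IsQ μ 2 (QM μ s) := isQ_QM hs hN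
  have hfin : IsFiniteMeasure (nuM (QM μ s)) := ⟨nu_univ_lt hQ⟩
  set ν := nuM (QM μ s) with hν
  rw [ENNReal.tendsto_nhds_zero]
  intro ε hε
  by_cases htop : ε = ⊤
  · exact Eventually.of_forall fun k => by rw [htop]; exact le_top
  set δ : ℝ := ε.toReal / 3 with hδ
  have hε' : 0 < ε.toReal := ENNReal.toReal_pos hε.ne' htop
  have hδ0 : 0 < δ := by positivity
  have h3δ : ENNReal.ofReal δ + ENNReal.ofReal δ + ENNReal.ofReal δ = ε := by
    rw [← ENNReal.ofReal_add hδ0.le hδ0.le, ← ENNReal.ofReal_add (by positivity) hδ0.le,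
      show δ + δ + δ = ε.toReal by rw [hδ]; ring, ENNReal.ofReal_toReal htop]
  obtain ⟨B, hBm, ⟨F, hB⟩, hAB⟩ := exists_local (ν.map pw) measurableSet_AA hδ0
  have hABm : MeasurableSet (AA ∆ B) := measurableSet_AA.symmDiff hBm
  rw [Measure.map_apply measurable_pw hABm] at hAB
  have hfar := (ENNReal.tendsto_nhds_zero.1 (tendsto_Far hQ F)) (ENNReal.ofReal δ)
    (ENNReal.ofReal_pos.2 hδ0)
  filter_upwards [hfar] with k hk
  have hmT := mp_Tz hQ (k : ℤ)
  have hmR := mp_Rf hsym hs hN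
  have hmS := mp_sw hs hN
  have hpm : MeasurableSet (pw ⁻¹' (AA ∆ B)) := measurable_pw hABm
  have h1 : ν {y | Tz (k : ℤ) (Rf y) ∈ pw ⁻¹' (AA ∆ B)} = ν (pw ⁻¹' (AA ∆ B)) :=
    (hmT.comp hmR).measure_preimage hpm.nullMeasurableSet
  have h2 : ν {y | sw (Tz (k : ℤ) y) ∈ pw ⁻¹' (AA ∆ B)} = ν (pw ⁻¹' (AA ∆ B)) :=
    (hmS.comp hmT).measure_preimage hpm.nullMeasurableSet
  have h3 : ν {y | Tz (k : ℤ) y ∈ Far F k} = ν (Far F k) :=
    hmT.measure_preimage (measurableSet_Far F k).nullMeasurableSet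
  have hsub : ν {y | ¬ (Tz (k : ℤ) (Rf y) ∈ AA ↔ Tz (k : ℤ) y ∈ AA)} ≤
      ν ({y | Tz (k : ℤ) (Rf y) ∈ pw ⁻¹' (AA ∆ B)} ∪ {y | sw (Tz (k : ℤ) y) ∈ pw ⁻¹' (AA ∆ B)} ∪
        {y | Tz (k : ℤ) y ∈ Far F k}) := by
    apply measure_mono_ae
    filter_upwards [ae_CW hQ, nu_ae_GY hQ] with y hc hG hy
    by_contra hcon
    have hcon' : ¬ (y ∈ ({y | Tz (k : ℤ) (Rf y) ∈ pw ⁻¹' (AA ∆ B)} ∪
      {y | sw (Tz (k : ℤ) y) ∈ pw ⁻¹' (AA ∆ B)} ∪ {y | Tz (k : ℤ) y ∈ Far F k})) := hcon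
    simp only [Set.mem_union, Set.mem_ofPred_eq, not_or, Set.mem_preimage] at hcon'
    obtain ⟨⟨c1, c2⟩, c3⟩ := hcon'
    apply hy
    by_cases hA : y ∈ AA
    · have c4 := local_pos hB hG hc c3
      rw [Rf_of_mem hA] at c1 ⊢
      have c5 : pw (Tz (k : ℤ) (Rf0 y)) ∈ AA ↔ pw (Tz (k : ℤ) (Rf0 y)) ∈ B := by
        rw [Set.mem_symmDiff] at c1
        tauto
      have c6 : pw (sw (Tz (k : ℤ) y)) ∈ AA ↔ pw (sw (Tz (k : ℤ) y)) ∈ B := by
        rw [Set.mem_symmDiff] at c2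
        tauto
      rw [pw_mem_AA] at c5 c6
      rw [sw_mem_AA] at c6
      rw [c5, c4, c6]
    · rw [Rf_of_notMem hA]
  calc ν {y | ¬ (Tz (k : ℤ) (Rf y) ∈ AA ↔ Tz (k : ℤ) y ∈ AA)}
      ≤ _ := hsub
    _ ≤ ν {y | Tz (k : ℤ) (Rf y) ∈ pw ⁻¹' (AA ∆ B)} + ν {y | sw (Tz (k : ℤ) y) ∈ pw ⁻¹' (AA ∆ B)} +
        ν {y | Tz (k : ℤ) y ∈ Far F k} :=
      (measure_union_le _ _).trans (add_le_add (measure_union_le _ _) le_rfl)
    _ ≤ ENNReal.ofReal δ + ENNReal.ofReal δ + ENNReal.ofReal δ := by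
      rw [h1, h2, h3]
      exact add_le_add (add_le_add hAB.le hAB.le) hk
    _ = ε := h3δ

theorem loc_neg {μ : Measure ℝ} [IsProbabilityMeasure μ] (hsym : μ.map (fun x => -x) = μ)
    {k₀ : ℕ} {s : Fin k₀ → (Ed → ℝ) → (Ed → Bool)} (hs : Sel s) (hN : ∀ᵐ J ∂(PP μ), Nice k₀ J) :
    Tendsto (fun k : ℕ => nuM (QM μ s)
      {y | ¬ (Tz (-(k : ℤ)) (Rf y) ∈ AA ↔ Tz (-(k : ℤ)) y ∈ AA)}) atTop (𝓝 0) := by
  have hQ : IsQ μ k₀ (QM μ s) := isQ_QM hs hN
  have hfin : IsFiniteMeasure (nuM (QM μ s)) := ⟨nu_univ_lt hQ⟩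
  set ν := nuM (QM μ s) with hν
  rw [ENNReal.tendsto_nhds_zero]
  intro ε hε
  by_cases htop : ε = ⊤
  · exact Eventually.of_forall fun k => by rw [htop]; exact le_top
  set δ : ℝ := ε.toReal / 3 with hδ
  have hε' : 0 < ε.toReal := ENNReal.toReal_pos hε.ne' htop
  have hδ0 : 0 < δ := by positivity
  have h3δ : ENNReal.ofReal δ + ENNReal.ofReal δ + ENNReal.ofReal δ = ε := by
    rw [← ENNReal.ofReal_add hδ0.le hδ0.le, ← ENNReal.ofReal_add (by positivity) hδ0.le,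
      show δ + δ + δ = ε.toReal by rw [hδ]; ring, ENNReal.ofReal_toReal htop]
  obtain ⟨B, hBm, ⟨F, hB⟩, hAB⟩ := exists_local (ν.map pw) measurableSet_AA hδ0
  have hABm : MeasurableSet (AA ∆ B) := measurableSet_AA.symmDiff hBm
  rw [Measure.map_apply measurable_pw hABm] at hAB
  have hfar := (ENNReal.tendsto_nhds_zero.1 (tendsto_Far hQ F)) (ENNReal.ofReal δ)
    (ENNReal.ofReal_pos.2 hδ0)
  filter_upwards [hfar] with k hk
  have hmT := mp_Tz hQ (-(k : ℤ))
  have hmR := mp_Rf hsym hs hN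
  have hpm : MeasurableSet (pw ⁻¹' (AA ∆ B)) := measurable_pw hABm
  have h1 : ν {y | Tz (-(k : ℤ)) (Rf y) ∈ pw ⁻¹' (AA ∆ B)} = ν (pw ⁻¹' (AA ∆ B)) :=
    (hmT.comp hmR).measure_preimage hpm.nullMeasurableSet
  have h2 : ν {y | Tz (-(k : ℤ)) y ∈ pw ⁻¹' (AA ∆ B)} = ν (pw ⁻¹' (AA ∆ B)) :=
    hmT.measure_preimage hpm.nullMeasurableSet
  have h3 : ν {y | Tz (-(k : ℤ)) y ∈ Far F k} = ν (Far F k) :=
    hmT.measure_preimage (measurableSet_Far F k).nullMeasurableSet
  have hsub : ν {y | ¬ (Tz (-(k : ℤ)) (Rf y) ∈ AA ↔ Tz (-(k : ℤ)) y ∈ AA)} ≤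
      ν ({y | Tz (-(k : ℤ)) (Rf y) ∈ pw ⁻¹' (AA ∆ B)} ∪ {y | Tz (-(k : ℤ)) y ∈ pw ⁻¹' (AA ∆ B)} ∪
        {y | Tz (-(k : ℤ)) y ∈ Far F k}) := by
    apply measure_mono_ae
    filter_upwards [nu_ae_GY hQ] with y hG hy
    by_contra hcon
    have hcon' : ¬ (y ∈ ({y | Tz (-(k : ℤ)) (Rf y) ∈ pw ⁻¹' (AA ∆ B)} ∪
      {y | Tz (-(k : ℤ)) y ∈ pw ⁻¹' (AA ∆ B)} ∪ {y | Tz (-(k : ℤ)) y ∈ Far F k})) := hcon
    simp only [Set.mem_union, Set.mem_ofPred_eq, not_or, Set.mem_preimage] at hcon'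
    obtain ⟨⟨c1, c2⟩, c3⟩ := hcon'
    apply hy
    by_cases hA : y ∈ AA
    · have c4 := local_neg hB hG c3
      rw [Rf_of_mem hA] at c1 ⊢
      have c5 : pw (Tz (-(k : ℤ)) (Rf0 y)) ∈ AA ↔ pw (Tz (-(k : ℤ)) (Rf0 y)) ∈ B := by
        rw [Set.mem_symmDiff] at c1
        tauto
      have c6 : pw (Tz (-(k : ℤ)) y) ∈ AA ↔ pw (Tz (-(k : ℤ)) y) ∈ B := by
        rw [Set.mem_symmDiff] at c2
        tauto
      rw [pw_mem_AA] at c5 c6
      rw [c5, c4, c6]
    · rw [Rf_of_notMem hA]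
  calc ν {y | ¬ (Tz (-(k : ℤ)) (Rf y) ∈ AA ↔ Tz (-(k : ℤ)) y ∈ AA)}
      ≤ _ := hsub
    _ ≤ ν {y | Tz (-(k : ℤ)) (Rf y) ∈ pw ⁻¹' (AA ∆ B)} + ν {y | Tz (-(k : ℤ)) y ∈ pw ⁻¹' (AA ∆ B)} +
        ν {y | Tz (-(k : ℤ)) y ∈ Far F k} :=
      (measure_union_le _ _).trans (add_le_add (measure_union_le _ _) le_rfl)
    _ ≤ ENNReal.ofReal δ + ENNReal.ofReal δ + ENNReal.ofReal δ := by
      rw [h1, h2, h3]
      exact add_le_add (add_le_add hAB.le hAB.le) hk
    _ = ε := h3δ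

end Pool.Agent.Helper60.TJ
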