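import Pool.Agent.Helper66.TJ.Half
import Pool.Agent.Helper60.TJ.C2

set_option autoImplicit false

/-! The reflection of a wall at the origin. -/

namespace Pool.Agent.Helper60.TJ

open MeasureTheory

/-! ### the walk depends only on the wall -/

theorem Th_congr {y y' : YY} (h1 : wl y.1 = wl y'.1) (h2 : y.2 = y'.2) :
    wl (Th y).1 = wl (Th y').1 ∧ (Th y).2 = (Th y').2 := by
  have h3 : wl (Th y).1 = wl (Th y').1 := by
    show wl (shX (stp y.2) y.1) = wl (shX (stp y'.2) y'.1)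
    rw [wl_shX, wl_shX, h1, h2]
  refine ⟨h3, ?_⟩
  show nxt (wl (shX (stp y.2) y.1)) 0 y.2 = nxt (wl (shX (stp y'.2) y'.1)) 0 y'.2
  rw [wl_shX, wl_shX, h1, h2]

theorem iterate_congr {y y' : YY} (h1 : wl y.1 = wl y'.1) (h2 : y.2 = y'.2) (n : ℕ) :
    wl (Th^[n] y).1 = wl (Th^[n] y').1 ∧ (Th^[n] y).2 = (Th^[n] y').2 := by
  induction n with
  | zero => exact ⟨h1, h2⟩
  | succ n ih =>
    rw [Function.iterate_succ_apply', Function.iterate_succ_apply']
    exact Th_congr ih.1 ih.2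

theorem pos_congr {y y' : YY} (h1 : wl y.1 = wl y'.1) (h2 : y.2 = y'.2) (n : ℕ) :
    pos y n = pos y' n := by
  induction n with
  | zero => rfl
  | succ n ih => simp only [pos]; rw [ih, (iterate_congr h1 h2 n).2]

theorem wedge_congr {y y' : YY} (h1 : wl y.1 = wl y'.1) (h2 : y.2 = y'.2) (n : ℕ) :
    wedge y n = wedge y' n := by
  unfold wedge; rw [pos_congr h1 h2, (iterate_congr h1 h2 n).2]

theorem hp_congr {y y' : YY} (h1 : wl y.1 = wl y'.1) (h2 : y.2 = y'.2) : hp y = hp y' := by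
  have h3 : wedge y = wedge y' := funext fun n => wedge_congr h1 h2 n
  unfold hp
  rw [h3]

theorem GY_congr {y y' : YY} (h1 : wl y.1 = wl y'.1) (h2 : y.2 = y'.2) : GY y ↔ GY y' := by
  unfold GY; rw [h1, h2]

theorem CW_congr {y y' : YY} (h1 : wl y.1 = wl y'.1) : CW y ↔ CW y' := by
  unfold CW; rw [h1]

theorem rv_snd_congr {y y' : YY} (h1 : wl y.1 = wl y'.1) (h2 : y.2 = y'.2) :
    (rv y).2 = (rv y').2 := by
  show oth (wl y.1) 0 y.2 = oth (wl y'.1) 0 y'.2
  rw [h1, h2]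

theorem posz_congr {y y' : YY} (h1 : wl y.1 = wl y'.1) (h2 : y.2 = y'.2) (k : ℤ) :
    posz y k = posz y' k := by
  unfold posz
  rw [pos_congr h1 h2, pos_congr (y := rv y) (y' := rv y') h1 (rv_snd_congr h1 h2)]

theorem Tz_snd_congr {y y' : YY} (h1 : wl y.1 = wl y'.1) (h2 : y.2 = y'.2) (k : ℤ) :
    (Tz k y).2 = (Tz k y').2 := by
  by_cases h : GY y
  · have h' := (GY_congr h1 h2).1 h
    rcases Int.eq_nat_or_neg k with ⟨n, rfl | rfl⟩
    · rw [Tz_natCast h, Tz_natCast h']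
      exact (iterate_congr h1 h2 n).2
    · rw [Tz_neg_natCast h, Tz_neg_natCast h']
      have h3 := iterate_congr (y := rv y) (y' := rv y') h1 (rv_snd_congr h1 h2) n
      exact rv_snd_congr h3.1 h3.2
  · have h' : ¬ GY y' := fun h' => h ((GY_congr h1 h2).2 h')
    rw [Tz_of_not h, Tz_of_not h', h2]

theorem wedgez_congr {y y' : YY} (h1 : wl y.1 = wl y'.1) (h2 : y.2 = y'.2) (k : ℤ) :
    wedgez y k = wedgez y' k := by
  unfold wedgez; rw [posz_congr h1 h2, Tz_snd_congr h1 h2]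

theorem xv_Tz {y : YY} (h : GY y) (k : ℤ) :
    xv (Tz k y) = wt y.1.1 (wedgez y k) * sg (y.1.2.1 (wedgez y k)) := by
  unfold xv
  rw [Tz_fst h]
  show |sh (posz y k) y.1.1 (edg 0 (Tz k y).2)| * sg (sh (posz y k) y.1.2.1 (edg 0 (Tz k y).2)) = _
  rw [sh_edg, sh_edg, zero_add]
  rfl

/-! ### the reflected pair -/

/-- the first T-join, flipped along the half wall -/
noncomputable def Zj (y : YY) : Ed → Bool := bx y.1.2.1 (hp y)

/-- the second T-join, flipped along the half wall -/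
noncomputable def Zk (y : YY) : Ed → Bool := bx y.1.2.2 (hp y)

/-- both flipped T-joins are locally minimal -/
def Adm (y : YY) : Prop :=
  (∀ C : Finset Ed, IsCyc C → 0 ≤ en (wt y.1.1) (Zj y) C) ∧
    ∀ C : Finset Ed, IsCyc C → 0 ≤ en (wt y.1.1) (Zk y) C

/-- the set of admissible points -/
def AA : Set YY := {y | GY y ∧ Adm y}

/-- the reflected point, everywhere defined -/
noncomputable def Rf0 (y : YY) : YY := ((flp (ray 0) y.1.1, Zj y, Zk y), y.2)

open Classical in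
/-- the partial reflection -/
noncomputable def Rf (y : YY) : YY := if y ∈ AA then Rf0 y else y

theorem bx_Zj_Zk (y : YY) : bx (Zj y) (Zk y) = wl y.1 := by
  funext e
  unfold Zj Zk wl bx
  cases y.1.2.1 e <;> cases y.1.2.2 e <;> cases hp y e <;> rfl

theorem wl_Rf0 (y : YY) : wl (Rf0 y).1 = wl y.1 := bx_Zj_Zk y

theorem hp_Rf0 (y : YY) : hp (Rf0 y) = hp y := hp_congr (wl_Rf0 y) rfl

theorem GY_Rf0 (y : YY) : GY (Rf0 y) ↔ GY y := GY_congr (wl_Rf0 y) rfl

theorem CW_Rf0 (y : YY) : CW (Rf0 y) ↔ CW y := CW_congr (wl_Rf0 y)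

theorem Zj_Rf0 (y : YY) : Zj (Rf0 y) = y.1.2.1 := by
  unfold Zj
  rw [hp_Rf0]
  exact bx_cancel _ _

theorem Zk_Rf0 (y : YY) : Zk (Rf0 y) = y.1.2.2 := by
  unfold Zk
  rw [hp_Rf0]
  exact bx_cancel _ _

theorem Rf0_Rf0 (y : YY) : Rf0 (Rf0 y) = y := by
  have h1 : flp (ray 0) (Rf0 y).1.1 = y.1.1 := flp_flp _ _
  have h2 : Rf0 (Rf0 y) = ((flp (ray 0) (Rf0 y).1.1, Zj (Rf0 y), Zk (Rf0 y)), (Rf0 y).2) := rfl
  rw [h2, h1, Zj_Rf0, Zk_Rf0]
  rfl

theorem Adm_Rf0 {y : YY} (h : y.1.2.1 ∈ GJ y.1.1) (h' : y.1.2.2 ∈ GJ y.1.1) : Adm (Rf0 y) := by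
  have hw : wt (Rf0 y).1.1 = wt y.1.1 := wt_flp _ _
  constructor
  · intro C hC
    rw [Zj_Rf0, hw]
    exact h.2 C hC
  · intro C hC
    rw [Zk_Rf0, hw]
    exact h'.2 C hC

/-- the flipped T-joins of an admissible point are T-joins for the flipped couplings -/
theorem Zj_mem {y : YY} (hy : GY y) (ha : Adm y) (hz : ∀ e, y.1.1 e ≠ 0) (h : y.1.2.1 ∈ GJ y.1.1) :
    Zj y ∈ GJ (flp (ray 0) y.1.1) := by
  refine ⟨fun v => ?_, fun C hC => ?_⟩
  · unfold Zj
    rw [par_bx, fr_flp hz, par_ray, par_hp hy, h.1 v]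
    rfl
  · rw [wt_flp]
    exact ha.1 C hC

theorem Zk_mem {y : YY} (hy : GY y) (ha : Adm y) (hz : ∀ e, y.1.1 e ≠ 0) (h : y.1.2.2 ∈ GJ y.1.1) :
    Zk y ∈ GJ (flp (ray 0) y.1.1) := by
  refine ⟨fun v => ?_, fun C hC => ?_⟩
  · unfold Zk
    rw [par_bx, fr_flp hz, par_ray, par_hp hy, h.1 v]
    rfl
  · rw [wt_flp]
    exact ha.2 C hC

theorem Rf_of_mem {y : YY} (h : y ∈ AA) : Rf y = Rf0 y := if_pos h

theorem Rf_of_notMem {y : YY} (h : y ∉ AA) : Rf y = y := if_neg h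

/-- the a.s. properties which make the reflection work -/
structure Gd (y : YY) : Prop where
  nz : ∀ e, y.1.1 e ≠ 0
  mem : y.1.2.1 ∈ GJ y.1.1
  mem' : y.1.2.2 ∈ GJ y.1.1
  ne : y.1.2.1 ≠ y.1.2.2

theorem ae_Gd {μ : Measure ℝ} {k : ℕ} {Q : Measure XX}
    (hQ : IsQ μ k Q) : ∀ᵐ y ∂(nuM Q), Gd y := by
  filter_upwards [nu_ae_of hQ.nice] with y hy
  exact ⟨hy.1.nz, hy.2.1, hy.2.2.1, hy.2.2.2⟩

theorem Rf_mem {y : YY} (hg : Gd y) (h : y ∈ AA) : Rf y ∈ AA := by
  rw [Rf_of_mem h]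
  exact ⟨(GY_Rf0 y).2 h.1, Adm_Rf0 hg.mem hg.mem'⟩

theorem Rf_Rf {y : YY} (hg : Gd y) : Rf (Rf y) = y := by
  by_cases h : y ∈ AA
  · rw [Rf_of_mem (Rf_mem hg h), Rf_of_mem h, Rf0_Rf0]
  · rw [Rf_of_notMem h, Rf_of_notMem h]

theorem xv_Rf_nonneg {y : YY} (h : y ∈ AA) (k : ℕ) :
    xv (Tz (k : ℤ) (Rf y)) = - xv (Tz (k : ℤ) y) := by
  rw [Rf_of_mem h, xv_Tz ((GY_Rf0 y).2 h.1), xv_Tz h.1, wedgez_congr (wl_Rf0 y) rfl]
  have h1 : wt (Rf0 y).1.1 = wt y.1.1 := wt_flp _ _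
  have h2 : (Rf0 y).1.2.1 (wedgez y k) = !(y.1.2.1 (wedgez y k)) := by
    show bx y.1.2.1 (hp y) (wedgez y k) = _
    unfold bx
    rw [hp_wedgez h.1]
    simp
  rw [h1, h2, sg_not]
  ring

theorem xv_Rf_neg {y : YY} (h : y ∈ AA) {k : ℤ} (hk : k < 0) :
    xv (Tz k (Rf y)) = xv (Tz k y) := by
  rw [Rf_of_mem h, xv_Tz ((GY_Rf0 y).2 h.1), xv_Tz h.1, wedgez_congr (wl_Rf0 y) rfl]
  have h1 : wt (Rf0 y).1.1 = wt y.1.1 := wt_flp _ _
  have h2 : (Rf0 y).1.2.1 (wedgez y k) = y.1.2.1 (wedgez y k) := by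
    show bx y.1.2.1 (hp y) (wedgez y k) = _
    unfold bx
    rw [hp_wedgez h.1]
    have : ¬ 0 ≤ k := by omega
    simp [this]
  rw [h1, h2]

/-! ### measurability -/

theorem measurable_wedge (n : ℕ) : Measurable fun y : YY => wedge y n := by
  have h1 : Measurable fun y : YY => (pos y n, (Th^[n] y).2) :=
    (measurable_pos n).prodMk (measurable_snd.comp (measurable_Th.iterate n))
  have h2 : Measurable fun q : Vx × Dir => edg q.1 q.2 := measurable_of_countable _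
  exact h2.comp h1

theorem measurable_hp : Measurable hp := by
  refine measurable_pi_lambda _ fun e => measurable_to_bool ?_
  have : (fun y : YY => hp y e) ⁻¹' {true} = ⋃ n, {y | wedge y n = e} := by
    ext y
    simp only [Set.mem_preimage, Set.mem_singleton_iff, hp_true, Set.mem_iUnion, Set.mem_ofPred_eq]
    exact exists_congr fun n => eq_comm
  rw [this]
  exact MeasurableSet.iUnion fun n => (measurable_wedge n) (measurableSet_singleton e)

theorem measurable_Zj : Measurable Zj :=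
  measurable_bx.comp ((measurable_fst.comp (measurable_snd.comp measurable_fst)).prodMk measurable_hp)

theorem measurable_Zk : Measurable Zk :=
  measurable_bx.comp ((measurable_snd.comp (measurable_snd.comp measurable_fst)).prodMk measurable_hp)

theorem measurableSet_AA : MeasurableSet AA := by
  refine measurableSet_GY.inter ?_
  have key : ∀ {f : YY → (Ed → Bool)}, Measurable f →
      MeasurableSet {y : YY | ∀ C : Finset Ed, IsCyc C → 0 ≤ en (wt y.1.1) (f y) C} := by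
    intro f hf
    have : {y : YY | ∀ C : Finset Ed, IsCyc C → 0 ≤ en (wt y.1.1) (f y) C} =
        ⋂ C : Finset Ed, ({_y : YY | ¬ IsCyc C} ∪ {y : YY | 0 ≤ en (wt y.1.1) (f y) C}) := by
      ext y
      simp only [Set.mem_ofPred_eq, Set.mem_iInter, Set.mem_union]
      refine forall_congr' fun C => ?_
      tauto
    rw [this]
    refine MeasurableSet.iInter fun C => (MeasurableSet.const _).union ?_
    refine measurableSet_le measurable_const ?_
    exact (measurable_en C).comp ((measurable_fst.comp measurable_fst).prodMk hf)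
  exact (key measurable_Zj).inter (key measurable_Zk)

theorem measurable_Rf0 : Measurable Rf0 :=
  (((measurable_flp _).comp (measurable_fst.comp measurable_fst)).prodMk
    (measurable_Zj.prodMk measurable_Zk)).prodMk measurable_snd

theorem measurable_Rf : Measurable Rf := by
  classical
  exact Measurable.ite measurableSet_AA measurable_Rf0 measurable_id

/-! ### invariance of the measure -/

theorem nu_eq (Q : Measure XX) {A : Set YY} (hA : MeasurableSet A) :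
    nuM Q A = ∑ d : Dir, Q {p | wl p (edg 0 d) = true ∧ (p, d) ∈ A} := by
  unfold nuM
  rw [Measure.finsetSum_apply]
  refine Finset.sum_congr rfl fun d _ => ?_
  have hm : Measurable (fun p : XX => (p, d)) := measurable_id.prodMk measurable_const
  rw [Measure.map_apply hm hA, Measure.restrict_apply (hm hA)]
  congr 1
  ext p
  simp only [Set.mem_inter_iff, Set.mem_preimage, Set.mem_ofPred_eq]
  tauto

theorem ct_Rf {J : Ed → ℝ} (hz : ∀ e, J e ≠ 0) (d : Dir) (B : Set YY) :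
    ct {p | wl p (edg 0 d) = true ∧ (p, d) ∈ Rf ⁻¹' B ∩ AA} J =
      ct {p | wl p (edg 0 d) = true ∧ (p, d) ∈ B ∩ AA} (flp (ray 0) J) := by
  have hz' : ∀ e, flp (ray 0) J e ≠ 0 := by
    intro e
    simp only [flp_apply]
    split_ifs
    · exact neg_ne_zero.2 (hz e)
    · exact hz e
  unfold ct
  congr 1
  refine Set.ncard_congr (fun q _ => (Zj ((J, q.1, q.2), d), Zk ((J, q.1, q.2), d))) ?_ ?_ ?_
  · rintro ⟨U, U'⟩ ⟨⟨hU, hU', hne⟩, hw, hR, hA⟩
    have hR' : Rf0 ((J, U, U'), d) ∈ B := by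
      rw [← Rf_of_mem hA]; exact hR
    refine ⟨⟨Zj_mem hA.1 hA.2 hz hU, Zk_mem hA.1 hA.2 hz hU', ?_⟩, ?_, ?_, ?_⟩
    · intro h
      have h1 := bx_Zj_Zk ((J, U, U'), d)
      have h2 : bx (Zj ((J, U, U'), d)) (Zk ((J, U, U'), d)) = fun _ => false := by
        rw [show Zj ((J, U, U'), d) = Zk ((J, U, U'), d) from h, bx_self]
      rw [h2] at h1
      have h3 := congrFun h1 (edg 0 d)
      have h4 : wl (J, U, U') (edg 0 d) = true := hw
      have h5 : false = wl (J, U, U') (edg 0 d) := h3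
      rw [h4] at h5
      exact absurd h5 (by simp)
    · show bx (Zj ((J, U, U'), d)) (Zk ((J, U, U'), d)) (edg 0 d) = true
      rw [bx_Zj_Zk]
      exact hw
    · exact hR'
    · exact ⟨(GY_Rf0 _).2 hA.1, Adm_Rf0 (y := ((J, U, U'), d)) hU hU'⟩
  · rintro ⟨U, U'⟩ ⟨V, V'⟩ ⟨⟨hU, hU', hne⟩, hw, hR, hA⟩ ⟨⟨hV, hV', hne'⟩, hw', hR', hA'⟩ hqq
    have h1 : Rf0 ((J, U, U'), d) = Rf0 ((J, V, V'), d) := by
      have e1 : Zj ((J, U, U'), d) = Zj ((J, V, V'), d) := congrArg Prod.fst hqq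
      have e2 : Zk ((J, U, U'), d) = Zk ((J, V, V'), d) := congrArg Prod.snd hqq
      unfold Rf0
      rw [e1, e2]
    have h2 := congrArg Rf0 h1
    rw [Rf0_Rf0, Rf0_Rf0] at h2
    have h3 := congrArg (fun y : YY => y.1.2) h2
    exact h3
  · rintro ⟨V, V'⟩ ⟨⟨hV, hV', hne⟩, hw, hB, hA⟩
    set y' : YY := ((flp (ray 0) J, V, V'), d) with hy'
    have hJ : flp (ray 0) y'.1.1 = J := flp_flp _ _
    have hR : Rf0 y' = ((J, Zj y', Zk y'), d) := by
      unfold Rf0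
      rw [hJ]
    have hRR : Rf0 ((J, Zj y', Zk y'), d) = y' := by rw [← hR, Rf0_Rf0]
    have hAR : ((J, Zj y', Zk y'), d) ∈ AA := by
      rw [← hR]
      exact ⟨(GY_Rf0 _).2 hA.1, Adm_Rf0 (y := y') hV hV'⟩
    refine ⟨(Zj y', Zk y'), ⟨⟨?_, ?_, ?_⟩, ?_, ?_, hAR⟩, ?_⟩
    · have := Zj_mem hA.1 hA.2 hz' hV
      rw [hJ] at this
      exact this
    · have := Zk_mem hA.1 hA.2 hz' hV'
      rw [hJ] at this
      exact this
    · intro h
      have h1 := bx_Zj_Zk y'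
      rw [show Zj y' = Zk y' from h, bx_self] at h1
      have h4 : wl y'.1 (edg 0 d) = true := hw
      rw [← h1] at h4
      exact absurd h4 (by simp)
    · show bx (Zj y') (Zk y') (edg 0 d) = true
      rw [bx_Zj_Zk]
      exact hw
    · show Rf ((J, Zj y', Zk y'), d) ∈ B
      rw [Rf_of_mem hAR, hRR]
      exact hB
    · have h1 : Zj (Rf0 y') = V := Zj_Rf0 y'
      have h2 : Zk (Rf0 y') = V' := Zk_Rf0 y'
      rw [hR] at h1 h2
      exact Prod.ext h1 h2

theorem mp_Rf {μ : Measure ℝ} [IsProbabilityMeasure μ] (hsym : μ.map (fun x => -x) = μ) {k : ℕ}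
    {s : Fin k → (Ed → ℝ) → (Ed → Bool)} (hs : Sel s) (hN : ∀ᵐ J ∂(PP μ), Nice k J) :
    MeasurePreserving Rf (nuM (QM μ s)) (nuM (QM μ s)) := by
  refine ⟨measurable_Rf, ?_⟩
  have hm : ∀ (d : Dir) {B : Set YY}, MeasurableSet B →
      MeasurableSet {p : XX | wl p (edg 0 d) = true ∧ (p, d) ∈ B} := by
    intro d B hB
    exact (measurableSet_eq_fun ((measurable_coord (edg 0 d)).comp measurable_wl)
      measurable_const).inter ((measurable_id.prodMk measurable_const :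
        Measurable fun p : XX => (p, d)) hB)
  have key : ∀ {B : Set YY}, MeasurableSet B →
      nuM (QM μ s) (Rf ⁻¹' B ∩ AA) = nuM (QM μ s) (B ∩ AA) := by
    intro B hB
    have hB1 : MeasurableSet (Rf ⁻¹' B ∩ AA) := (measurable_Rf hB).inter measurableSet_AA
    have hB2 : MeasurableSet (B ∩ AA) := hB.inter measurableSet_AA
    rw [nu_eq _ hB1, nu_eq _ hB2]
    refine Finset.sum_congr rfl fun d _ => ?_
    rw [QM_apply hs hN (hm d hB1), QM_apply hs hN (hm d hB2)]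
    have h1 := lintegral_map' (μ := PP μ) (g := flp (ray 0))
      (f := ct {p | wl p (edg 0 d) = true ∧ (p, d) ∈ B ∩ AA})
      (by rw [(mp_flp μ hsym (ray 0)).map_eq]; exact aemeasurable_ct hs hN (hm d hB2))
      (measurable_flp _).aemeasurable
    rw [(mp_flp μ hsym (ray 0)).map_eq] at h1
    rw [h1]
    refine lintegral_congr_ae ?_
    filter_upwards [hN] with J hJ
    exact ct_Rf hJ.nz d B
  ext B hB
  rw [Measure.map_apply measurable_Rf hB]
  have h1 : nuM (QM μ s) (Rf ⁻¹' B) = nuM (QM μ s) (Rf ⁻¹' B ∩ AA) + nuM (QM μ s) (Rf ⁻¹' B \ AA) :=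
    (measure_inter_add_sdiff _ measurableSet_AA).symm
  have h2 : nuM (QM μ s) B = nuM (QM μ s) (B ∩ AA) + nuM (QM μ s) (B \ AA) :=
    (measure_inter_add_sdiff _ measurableSet_AA).symm
  have h3 : Rf ⁻¹' B \ AA = B \ AA := by
    ext y
    simp only [Set.mem_sdiff, Set.mem_preimage]
    constructor
    · rintro ⟨h4, h5⟩
      rw [Rf_of_notMem h5] at h4
      exact ⟨h4, h5⟩
    · rintro ⟨h4, h5⟩
      exact ⟨by rw [Rf_of_notMem h5]; exact h4, h5⟩
  rw [h1, h2, key hB, h3]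

end Pool.Agent.Helper60.TJ
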