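import Pool.Agent.Helper60.TJ.H3

set_option autoImplicit false

/-! The sum of the two class energies of a pair of plaquettes is tight. -/

namespace Pool.Agent.Helper60.TJ

open MeasureTheory
open H3x

theorem ae_nice_of_isQ {μ : Measure ℝ} {k : ℕ} {Q : Measure XX} (hQ : IsQ μ k Q) :
    ∀ᵐ J ∂(PP μ), ∀ U ∈ GJ J, ∀ U' ∈ GJ J, U ≠ U' → Nice k J := by
  have h := hQ.nice
  set N : Set XX := {p | ¬ (Nice k p.1 ∧ p.2.1 ∈ GJ p.1 ∧ p.2.2 ∈ GJ p.1 ∧ p.2.1 ≠ p.2.2)} with hN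
  have hN0 : Q N = 0 := h
  have h1 := hQ.ae_all (toMeasurable Q N) (measurableSet_toMeasurable _ _)
    (by rw [measure_toMeasurable]; exact hN0)
  filter_upwards [h1] with J hJ U hU U' hU' hne
  by_contra hcon
  refine hJ U hU U' hU' hne (subset_toMeasurable Q N ?_)
  rw [hN]
  exact fun h => hcon h.1

/-- **Tightness** of the sum of the energies of two classes, uniformly in the two plaquettes. -/
theorem tail_small {μ : Measure ℝ} [IsProbabilityMeasure μ] (hsym : μ.map (fun x => -x) = μ)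
    {k : ℕ} {Q : Measure XX}
    (hQ : IsQ μ k Q) {η : ENNReal} (hη : 0 < η) :
    ∃ C : ℝ, 0 ≤ C ∧ ∀ (x x' : Vx) (D : Finset Ed), par (ind D) = vx (dl x) (dl x') →
      PP μ {J | ∃ U ∈ GJ J, ∃ U' ∈ GJ J, U ≠ U' ∧
        C < |Ei (wt J) U D + Ei (wt J) U' D|} ≤ η := by
  have hη' : 0 < η / 4 := ENNReal.div_pos hη.ne' (by simp)
  obtain ⟨M, hM0, hM⟩ := near_small hQ hη'
  refine ⟨4 * M, by positivity, fun x x' D hD => ?_⟩
  set R : Set (Ed → ℝ) := (NearBad x M ∪ NearBad x' M) ∪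
    (flp (ind D) ⁻¹' NearBad x M ∪ flp (ind D) ⁻¹' NearBad x' M) with hR
  have hRm : PP μ R ≤ η := by
    have h1 : PP μ (NearBad x M) ≤ η / 4 := hM x
    have h2 : PP μ (NearBad x' M) ≤ η / 4 := hM x'
    have h3 := (mp_preimage_le (mp_flp μ hsym (ind D)) (NearBad x M)).trans h1
    have h4 := (mp_preimage_le (mp_flp μ hsym (ind D)) (NearBad x' M)).trans h2
    calc PP μ R ≤ PP μ (NearBad x M ∪ NearBad x' M) +
          PP μ (flp (ind D) ⁻¹' NearBad x M ∪ flp (ind D) ⁻¹' NearBad x' M) := measure_union_le _ _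
      _ ≤ (PP μ (NearBad x M) + PP μ (NearBad x' M)) +
          (PP μ (flp (ind D) ⁻¹' NearBad x M) + PP μ (flp (ind D) ⁻¹' NearBad x' M)) :=
        add_le_add (measure_union_le _ _) (measure_union_le _ _)
      _ ≤ (η / 4 + η / 4) + (η / 4 + η / 4) := add_le_add (add_le_add h1 h2) (add_le_add h3 h4)
      _ = 4 * (η / 4) := by ring
      _ = η := ENNReal.mul_div_cancel (by simp) (by simp)
  refine le_trans (measure_mono_ae ?_) hRm
  filter_upwards [ae_nice_of_isQ hQ] with J hJ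
  rintro ⟨U, hU, U', hU', hne, hlt⟩
  have hN := hJ U hU U' hU' hne
  by_contra hpR
  rw [hR] at hpR
  have hpR' : ¬ (J ∈ (NearBad x M ∪ NearBad x' M) ∪
    (flp (ind D) ⁻¹' NearBad x M ∪ flp (ind D) ⁻¹' NearBad x' M)) := hpR
  simp only [Set.mem_union, not_or] at hpR'
  obtain ⟨⟨hb1, hb2⟩, hb3, hb4⟩ := hpR'
  have hn : ∀ U ∈ GJ J, ∀ U' ∈ GJ J, U ≠ U' →
      Near (wt J) (bx U U') x M ∧ Near (wt J) (bx U U') x' M := by
    intro U hU U' hU' hne
    constructor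
    · by_contra h
      exact hb1 ⟨U, hU, U', hU', hne, h⟩
    · by_contra h
      exact hb2 ⟨U, hU, U', hU', hne, h⟩
  have hGJ : GJ (flp (ind D) J) = GS (wt J) (vx (fr J) (par (ind D))) :=
    GJ_flp fun e _ => hN.nz e
  have hn' : ∀ U ∈ GS (wt J) (vx (fr J) (par (ind D))),
      ∀ U' ∈ GS (wt J) (vx (fr J) (par (ind D))), U ≠ U' →
      Near (wt J) (bx U U') x M ∧ Near (wt J) (bx U U') x' M := by
    intro U hU U' hU' hne
    rw [← hGJ] at hU hU'
    constructor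
    · by_contra h
      refine hb3 ⟨U, hU, U', hU', hne, ?_⟩
      rwa [wt_flp]
    · by_contra h
      refine hb4 ⟨U, hU, U', hU', hne, ?_⟩
      rwa [wt_flp]
  have := hdet2 (wt_nonneg J) hN.ib hD hn hn' U hU U' hU' hne
  linarith

end Pool.Agent.Helper60.TJ
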